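import Pool.Agent.W2helper4.CY.Nat
import Pool.Agent.Y118.CM.Cx

/-!
# The hypergeometric families are examples
-/

set_option autoImplicit false
set_option maxHeartbeats 1000000

open Matrix PowerSeries Pool.Agent.Y113

namespace Pool.Agent.W2helper4.CY

open Pool.Agent.W2helper4.HJ Pool.Agent.W2helper4.MJ
open Pool.Agent.Y119.HY (cm cm_mul cm_one cm_transpose E Hf Hc Am Jm Bm QB QD kx Hq Jc_det)
open Pool.Agent.Y119.HZ
open Pool.Agent.Y118.CM (DN DN_unit J0 form_rel dd hr hr_rel fa Dp aeval_Am DN_comm)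
open Pool.Agent.Y113.MT (NN SS SS_sq cq)

section one
variable {m : ℕ}

/-- the period matrix of the hypergeometric family -/
noncomputable def PH (β : Fin m → ℚ) : Matrix (Fin (2 * m)) (Fin (2 * m)) ℚ⟦X⟧ :=
  cM (DN β) * Hp (2 * m) (QB β) * cM (DN β)⁻¹

lemma cM_km {n : ℕ} (M : Matrix (Fin n) (Fin n) ℚ) : cM M = km M := rfl

lemma J0_SS (n : ℕ) : J0 n = SS ℚ n := rfl

lemma Am_NN (n : ℕ) : Am n = NN ℚ n := rfl

/-- the form -/
theorem form_PH {β : Fin m → ℚ} (hQ : QD (2 * m) (QB β)) :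
    (PH β)ᵀ * cM (SS ℚ (2 * m)) * PH β = cM (SS ℚ (2 * m)) := by
  have h0 : DN β * (DN β)⁻¹ = 1 := Matrix.mul_nonsing_inv _ (DN_unit hQ)
  have h1 : (DN β)ᵀ * SS ℚ (2 * m) * DN β = (-1 : ℚ) ^ m • Jm (2 * m) (QB β) := form_rel β (2 * m)
  have h2 : cM ((DN β)ᵀ * SS ℚ (2 * m) * DN β) = (C ((-1 : ℚ) ^ m) : ℚ⟦X⟧) • km (Jm (2 * m) (QB β)) := by
    rw [h1]
    ext1 i j
    rw [cM_apply, Matrix.smul_apply, Matrix.smul_apply, km_apply, smul_eq_mul, smul_eq_mul, map_mul]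
  have h3 : (Hp (2 * m) (QB β))ᵀ * cM ((DN β)ᵀ * SS ℚ (2 * m) * DN β) * Hp (2 * m) (QB β) =
      cM ((DN β)ᵀ * SS ℚ (2 * m) * DN β) := by
    rw [h2, Matrix.mul_smul, Matrix.smul_mul, form_Hp hQ]
  calc (PH β)ᵀ * cM (SS ℚ (2 * m)) * PH β =
      (cM (DN β)⁻¹)ᵀ * ((Hp (2 * m) (QB β))ᵀ * cM ((DN β)ᵀ * SS ℚ (2 * m) * DN β) * Hp (2 * m) (QB β)) * cM (DN β)⁻¹ := by
        unfold PH
        rw [Matrix.transpose_mul, Matrix.transpose_mul, cM_mul, cM_mul, cM_tr]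
        simp only [Matrix.mul_assoc]
    _ = cM ((DN β * (DN β)⁻¹)ᵀ * SS ℚ (2 * m) * (DN β * (DN β)⁻¹)) := by
        rw [h3, cM_mul, cM_mul, cM_mul, cM_mul, cM_tr, cM_tr, cM_mul, Matrix.transpose_mul]
        simp only [Matrix.mul_assoc]
    _ = _ := by rw [h0, Matrix.transpose_one, Matrix.one_mul, Matrix.mul_one]

/-- the differential equation -/
theorem ode_PH {β : Fin m → ℚ} (hQ : QD (2 * m) (QB β)) :
    (1 - X : ℚ⟦X⟧) • (th (PH β) + PH β * cM (NN ℚ (2 * m))) =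
      ((1 - X : ℚ⟦X⟧) • cM (NN ℚ (2 * m)) + (X : ℚ⟦X⟧) • cM (DN β * Bm (2 * m) (QB β) * (DN β)⁻¹)) * PH β := by
  have h0 : DN β * (DN β)⁻¹ = 1 := Matrix.mul_nonsing_inv _ (DN_unit hQ)
  have h0' : (DN β)⁻¹ * DN β = 1 := Matrix.nonsing_inv_mul _ (DN_unit hQ)
  have hc : DN β * Am (2 * m) = Am (2 * m) * DN β := by
    have h2 : Polynomial.aeval (Am (2 * m)) (Dp β * Polynomial.X) = Polynomial.aeval (Am (2 * m)) (Polynomial.X * Dp β) := by
      rw [mul_comm (Dp β)]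
    rwa [map_mul, map_mul, Polynomial.aeval_X] at h2
  have hc' : (DN β)⁻¹ * Am (2 * m) = Am (2 * m) * (DN β)⁻¹ := by
    calc (DN β)⁻¹ * Am (2 * m) = (DN β)⁻¹ * (Am (2 * m) * DN β) * (DN β)⁻¹ := by
          rw [Matrix.mul_assoc, Matrix.mul_assoc, h0, Matrix.mul_one]
      _ = ((DN β)⁻¹ * DN β) * Am (2 * m) * (DN β)⁻¹ := by
          rw [← hc]
          simp only [Matrix.mul_assoc]
      _ = _ := by rw [h0', Matrix.one_mul]
  have hth : th (PH β) = cM (DN β) * th (Hp (2 * m) (QB β)) * cM (DN β)⁻¹ := by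
    have hk : ∀ M : Matrix (Fin (2 * m)) (Fin (2 * m)) ℚ, th (cM M) = 0 := by
      intro M
      ext1 i j
      unfold th
      rw [Matrix.of_apply, cM_apply, ← PowerSeries.algebraMap_eq, Derivation.map_algebraMap, mul_zero, Matrix.zero_apply]
    unfold PH
    rw [th_mul, th_mul, hk, hk, Matrix.zero_mul, zero_add, Matrix.mul_zero, add_zero]
  have hcM : cM (DN β) * cM (Am (2 * m)) = cM (Am (2 * m)) * cM (DN β) := by rw [← cM_mul, hc, cM_mul]
  have hcM' : cM (DN β)⁻¹ * cM (Am (2 * m)) = cM (Am (2 * m)) * cM (DN β)⁻¹ := by rw [← cM_mul, hc', cM_mul]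
  have e0 : cM (DN β) * (Hp (2 * m) (QB β) * cM (Am (2 * m))) * cM (DN β)⁻¹ = PH β * cM (NN ℚ (2 * m)) := by
    unfold PH
    rw [← Am_NN, Matrix.mul_assoc (cM (DN β)) (Hp (2 * m) (QB β)), Matrix.mul_assoc (cM (DN β)),
      Matrix.mul_assoc (cM (DN β)), Matrix.mul_assoc (Hp (2 * m) (QB β)), Matrix.mul_assoc (Hp (2 * m) (QB β)), hcM']
  have e3 : cM (DN β * Bm (2 * m) (QB β) * (DN β)⁻¹) * cM (DN β) = cM (DN β) * cM (Bm (2 * m) (QB β)) := by
    rw [← cM_mul, Matrix.mul_assoc _ (DN β)⁻¹, h0', Matrix.mul_one, cM_mul]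
  have e4 : ∀ Z : Matrix (Fin (2 * m)) (Fin (2 * m)) ℚ⟦X⟧, cM (DN β) * (cM (Am (2 * m)) * Z) =
      cM (NN ℚ (2 * m)) * (cM (DN β) * Z) := by
    intro Z
    rw [← Matrix.mul_assoc, hcM, Matrix.mul_assoc]
    rfl
  have e5 : ∀ Z : Matrix (Fin (2 * m)) (Fin (2 * m)) ℚ⟦X⟧, cM (DN β) * (cM (Bm (2 * m) (QB β)) * Z) =
      cM (DN β * Bm (2 * m) (QB β) * (DN β)⁻¹) * (cM (DN β) * Z) := by
    intro Z
    rw [← Matrix.mul_assoc, ← e3, Matrix.mul_assoc]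
  have h1 : cM (DN β) * ((1 - X : ℚ⟦X⟧) • (th (Hp (2 * m) (QB β)) + Hp (2 * m) (QB β) * cM (Am (2 * m)))) * cM (DN β)⁻¹ =
      cM (DN β) * (((1 - X : ℚ⟦X⟧) • cM (Am (2 * m)) + (X : ℚ⟦X⟧) • cM (Bm (2 * m) (QB β))) * Hp (2 * m) (QB β)) *
        cM (DN β)⁻¹ := congrArg (fun Z => cM (DN β) * Z * cM (DN β)⁻¹) (ode_Hp hQ)
  rw [Matrix.mul_smul, Matrix.smul_mul, Matrix.mul_add, Matrix.add_mul, ← hth, e0] at h1
  rw [h1, Matrix.add_mul, Matrix.smul_mul, Matrix.smul_mul, Matrix.mul_add, Matrix.mul_smul, Matrix.mul_smul,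
    Matrix.add_mul, Matrix.smul_mul, Matrix.smul_mul, e4, e5, Matrix.add_mul, Matrix.smul_mul, Matrix.smul_mul]
  unfold PH
  rw [Matrix.mul_assoc (cM (NN ℚ (2 * m))), Matrix.mul_assoc (cM (DN β * Bm (2 * m) (QB β) * (DN β)⁻¹))]

/-- G-functions -/
theorem sdc_PH (hm : 1 ≤ m) {β : Fin m → ℚ} (hβ : ∀ i, ∀ a : ℤ, β i ≠ a) (i j : Fin (2 * m)) : SDc (PH β i j) :=
  sdc_mul (sdc_mul (sdc_cM _) (gH_one hm hβ)) (sdc_cM _) i j

/-- the rows -/
theorem row_PH {β : Fin m → ℚ} (hQ : QD (2 * m) (QB β)) {i : Fin (2 * m)} (hi : (i : ℕ) < m) (j : Fin (2 * m)) (k : ℕ) :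
    coeff k (PH β i j) = coeff (j : ℕ) (kx k ^ (i : ℕ) * fa β k) := by
  have h1 : coeff k (PH β i j) = ((DN β) * Hq (2 * m) (QB β) k * (DN β)⁻¹) i j := by
    unfold PH
    rw [Matrix.mul_apply, Matrix.mul_apply, map_sum]
    refine Finset.sum_congr rfl fun b _ => ?_
    rw [cM_apply, coeff_mul_C, Matrix.mul_apply, Matrix.mul_apply, map_sum]
    congr 1
    refine Finset.sum_congr rfl fun c _ => ?_
    rw [cM_apply, coeff_C_mul]
    have h2 := congrFun (congrFun (cf_Hp (n := 2 * m) (Q := QB β) k) c) b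
    rw [← h2]
    rfl
  have h2 : (DN β) * Hq (2 * m) (QB β) k * (DN β)⁻¹ = (DN β) * Hq (2 * m) (QB β) k * (DN β)⁻¹ := rfl
  have hi' : m + (i : ℕ) < 2 * m := by omega
  have h3 := Pool.Agent.Y118.CM.hr_eq hQ hi' k
  have h4 : (fun c : Fin (2 * m) => dd β (i : ℕ) c) = (DN β) i := by
    funext c
    unfold dd DN
    rw [aeval_Am, Polynomial.coeff_mul_X_pow']
  rw [h1]
  have h5 := congrFun h3 j
  rw [h4] at h5
  have h6 : ((DN β) * Hq (2 * m) (QB β) k * (DN β)⁻¹) i j = (((DN β) i ᵥ* Hq (2 * m) (QB β) k) ᵥ* (DN β)⁻¹) j := rfl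
  rw [h6, ← h5]
  rfl

end one

section many
variable {r : ℕ} {m : Fin r → ℕ}

/-- extension of a polynomial identity -/
lemma eval_all {n : ℕ} {R : MvPolynomial (Fin n) (Polynomial ℚ)} {y : Fin n → ℂ} (h : ∀ z : ℂ, ‖z‖ < 1 →
    MvPolynomial.eval₂ (Polynomial.aeval z : Polynomial ℚ →ₐ[ℚ] ℂ).toRingHom y R = 0) (z : ℂ) :
    MvPolynomial.eval₂ (Polynomial.aeval z : Polynomial ℚ →ₐ[ℚ] ℂ).toRingHom y R = 0 := by
  set p : Polynomial ℂ := MvPolynomial.eval₂ (Polynomial.mapRingHom (algebraMap ℚ ℂ)) (fun i => Polynomial.C (y i)) R with hp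
  have hev : ∀ z : ℂ, p.eval z = MvPolynomial.eval₂ (Polynomial.aeval z : Polynomial ℚ →ₐ[ℚ] ℂ).toRingHom y R := by
    intro z
    rw [hp, ← Polynomial.coe_evalRingHom, MvPolynomial.hom_eval₂]
    congr 1
    · refine Polynomial.ringHom_ext (fun a => ?_) ?_
      · simp
      · simp
    · funext i
      simp
  have hp0 : p = 0 := by
    refine Polynomial.eq_zero_of_infinite_isRoot _ ?_
    have hinf : (Metric.ball (0 : ℂ) 1).Infinite := by
      have h1 : Metric.ball (0 : ℂ) 1 ∈ nhds (0 : ℂ) := Metric.ball_mem_nhds _ one_pos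
      exact infinite_of_mem_nhds 0 h1
    refine hinf.mono fun z hz => ?_
    show Polynomial.IsRoot p z
    rw [Polynomial.IsRoot.def, hev]
    exact h z (by simpa using hz)
  rw [← hev, hp0, Polynomial.eval_zero]

/-- maximal monodromy -/
theorem max_PH (hm : ∀ i, 1 ≤ m i) (β : ∀ i, Fin (m i) → ℚ) (hβ : ∀ i j, ∀ a : ℤ, β i j ≠ a)
    (hne : ∀ i k, i ≠ k → ¬ Eqv (β i) (β k)) : Max fun i => PH (β i) := by
  have hQ : ∀ i, QD (2 * m i) (QB (β i)) := fun i => QD_QB (hm i) (not_int (hβ i))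
  obtain ⟨D0, b, hD0, hb⟩ := exists_bb β
  have hUS := us_HH β hm hβ hD0 hb
  have hGD := gd_HH β hm hβ hne
  intro F hF x Z hZ
  set n := ∑ i, 2 * m i with hn
  set Xm : ∀ i, Matrix (Fin (2 * m i)) (Fin (2 * m i)) (MvPolynomial (Fin (n * n)) (Polynomial ℚ)) := fun i =>
    Matrix.of fun a b => MvPolynomial.X ((ix n).symm (finSigmaFinEquiv ⟨i, a⟩, finSigmaFinEquiv ⟨i, b⟩)) with hXm
  set kc : ∀ i, Matrix (Fin (2 * m i)) (Fin (2 * m i)) ℚ → Matrix (Fin (2 * m i)) (Fin (2 * m i))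
    (MvPolynomial (Fin (n * n)) (Polynomial ℚ)) := fun i M => M.map fun q => MvPolynomial.C (Polynomial.C q) with hkc
  set sub : (Σ i, Fin (2 * m i) × Fin (2 * m i)) → MvPolynomial (Fin (n * n)) (Polynomial ℚ) := fun v =>
    (kc v.1 (DN (β v.1)) * Xm v.1 * kc v.1 (DN (β v.1))⁻¹) v.2.1 v.2.2 with hsub
  have h1 : MvPolynomial.aeval (hg (HH β)) (MvPolynomial.bind₁ sub F) = 0 := by
    rw [MvPolynomial.aeval_bind₁, ← hF]
    refine congrArg (fun z => MvPolynomial.aeval z F) (funext fun v => ?_)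
    rw [hsub]
    simp only
    unfold PH
    rw [Matrix.mul_apply, Matrix.mul_apply, map_sum]
    refine Finset.sum_congr rfl fun c _ => ?_
    rw [Matrix.mul_apply, Matrix.mul_apply, map_mul, map_sum]
    congr 1
    · refine Finset.sum_congr rfl fun d _ => ?_
      rw [map_mul]
      congr 1
      · rw [hkc]
        simp only [Matrix.map_apply]
        rw [MvPolynomial.aeval_C, cM_apply, PowerSeries.algebraMap_apply', Polynomial.coe_C]
        exact PowerSeries.map_C _ _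
      · rw [hXm]
        simp only [Matrix.of_apply]
        rw [MvPolynomial.aeval_X]
        unfold hg HH
        rw [Equiv.apply_symm_apply, bd_same]
    · rw [hkc]
      simp only [Matrix.map_apply]
      rw [MvPolynomial.aeval_C, cM_apply, PowerSeries.algebraMap_apply', Polynomial.coe_C]
      exact PowerSeries.map_C _ _
  -- the point of the group
  set γ : ∀ i, Matrix (Fin (2 * m i)) (Fin (2 * m i)) ℂ := fun i => cm (DN (β i))⁻¹ * Z i * cm (DN (β i)) with hγ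
  have hu : ∀ i, cm (DN (β i)) * cm (DN (β i))⁻¹ = 1 := fun i => by
    rw [← cm_mul, Matrix.mul_nonsing_inv _ (DN_unit (hQ i)), cm_one]
  have hγJ : ∀ i, (γ i)ᵀ * JJ (β i) * γ i = JJ (β i) := by
    intro i
    have h2 : JJ (β i) = ((-1 : ℂ) ^ m i) • ((cm (DN (β i))).transpose * SS ℂ (2 * m i) * cm (DN (β i))) := by
      unfold JJ
      rw [Pool.Agent.Y113.MT.SS_eq, Pool.Agent.Y118.CM.form_relc, smul_smul, ← mul_pow]
      norm_num
    rw [h2, Matrix.mul_smul, Matrix.smul_mul]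
    congr 1
    calc (γ i)ᵀ * ((cm (DN (β i)))ᵀ * SS ℂ (2 * m i) * cm (DN (β i))) * γ i =
        (cm (DN (β i)))ᵀ * ((Z i)ᵀ * ((cm (DN (β i)) * cm (DN (β i))⁻¹)ᵀ * SS ℂ (2 * m i) *
          (cm (DN (β i)) * cm (DN (β i))⁻¹)) * Z i) * cm (DN (β i)) := by
          rw [hγ]
          simp only [Matrix.transpose_mul, Matrix.mul_assoc]
      _ = _ := by rw [hu, Matrix.transpose_one, Matrix.one_mul, Matrix.mul_one, hZ]
  have h2 : ∀ z : ℂ, MvPolynomial.eval₂ (Polynomial.aeval z : Polynomial ℚ →ₐ[ℚ] ℂ).toRingHom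
      (fun i => bd γ (ix n i).1 (ix n i).2) (MvPolynomial.bind₁ sub F) = 0 := by
    refine eval_all fun z hz => ?_
    exact mem_Vg (cm_nil hUS) hGD (pg_GS β hm hβ) hz (val_GS β hm hβ hz) (mem_GS hγJ) _ h1
  have h3 := h2 x
  rw [← MvPolynomial.coe_eval₂Hom, MvPolynomial.eval₂Hom_bind₁] at h3
  rw [← MvPolynomial.coe_eval₂Hom, ← h3]
  refine congrArg (fun z => MvPolynomial.eval₂Hom _ z F) (funext fun v => ?_)
  rw [hsub]
  simp only
  have hZv : Z v.1 = cm (DN (β v.1)) * γ v.1 * cm (DN (β v.1))⁻¹ := by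
    rw [hγ]
    calc Z v.1 = (cm (DN (β v.1)) * cm (DN (β v.1))⁻¹) * Z v.1 * (cm (DN (β v.1)) * cm (DN (β v.1))⁻¹) := by
          rw [hu, Matrix.one_mul, Matrix.mul_one]
      _ = _ := by simp only [Matrix.mul_assoc]
  have hcmC : ∀ (M : Matrix (Fin (2 * m v.1)) (Fin (2 * m v.1)) ℚ) (a c), MvPolynomial.eval₂Hom
      (Polynomial.aeval x : Polynomial ℚ →ₐ[ℚ] ℂ).toRingHom (fun i => bd γ (ix n i).1 (ix n i).2) (kc v.1 M a c) = cm M a c := by
    intro M a c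
    rw [hkc]
    simp only [Matrix.map_apply]
    rw [MvPolynomial.eval₂Hom_C]
    show Polynomial.aeval x (Polynomial.C (M a c)) = _
    rw [Polynomial.aeval_C]
    rfl
  nth_rewrite 1 [hZv]
  rw [Matrix.mul_apply, Matrix.mul_apply, map_sum]
  refine Finset.sum_congr rfl fun c _ => ?_
  rw [Matrix.mul_apply, Matrix.mul_apply, map_mul, map_sum, hcmC]
  congr 1
  refine Finset.sum_congr rfl fun d _ => ?_
  rw [map_mul, hcmC]
  congr 1
  rw [hXm]
  simp only [Matrix.of_apply]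
  rw [MvPolynomial.eval₂Hom_X', Equiv.apply_symm_apply, bd_same]

end many

end Pool.Agent.W2helper4.CY
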