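import Pool.Agent.W2helper4.MJ.Abs

/-!
# Mumford–Tate Lie algebras of sums of general fibres of Calabi–Yau type
-/

set_option autoImplicit false
set_option maxHeartbeats 1000000

open Matrix Pool.Agent.Y113.MT

namespace Pool.Agent.W2helper4.CY

open Pool.Agent.W2helper4.MJ

section
variable {m : ℕ}

lemma cq_SS (n : ℕ) : cq (SS ℚ n) = SS ℂ n := by
  ext i j
  rw [cq_apply]
  unfold SS
  rw [Matrix.of_apply, Matrix.of_apply]
  split_ifs <;> simp

lemma SSq_inv (m : ℕ) : (cq (SS ℚ (2 * m)))⁻¹ = -SS ℂ (2 * m) := by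
  rw [cq_SS]
  refine Matrix.inv_eq_left_inv ?_
  rw [Matrix.neg_mul, SS_sq, neg_neg]

lemma NN_SS (m : ℕ) : (NN ℂ (2 * m))ᵀ * cq (SS ℚ (2 * m)) = -(cq (SS ℚ (2 * m)) * NN ℂ (2 * m)) := by
  rw [cq_SS]
  ext i j
  have hi := i.2
  have hj := j.2
  rw [Matrix.neg_apply, SS_mul, Matrix.mul_apply]
  by_cases hi0 : (i : ℕ) = 0
  · rw [Finset.sum_eq_zero]
    · unfold NN
      rw [Matrix.of_apply, if_neg, mul_zero, neg_zero]
      rw [Fin.val_rev]
      omega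
    · intro k _
      rw [Matrix.transpose_apply]
      unfold NN
      rw [Matrix.of_apply, if_neg (by omega), zero_mul]
  · rw [Finset.sum_eq_single (⟨(i : ℕ) - 1, by omega⟩ : Fin (2 * m))]
    · rw [Matrix.transpose_apply]
      unfold NN SS
      rw [Matrix.of_apply, Matrix.of_apply, Matrix.of_apply, if_pos (by show (i : ℕ) = (i : ℕ) - 1 + 1; omega), one_mul]
      by_cases hij : (i : ℕ) + j = 2 * m
      · rw [if_pos (by show (i : ℕ) - 1 + j + 1 = 2 * m; omega), if_pos (by rw [Fin.val_rev]; omega), mul_one]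
        show (-1 : ℂ) ^ ((i : ℕ) - 1) = -(-1) ^ (i : ℕ)
        have h2 : (i : ℕ) = ((i : ℕ) - 1) + 1 := by omega
        nth_rewrite 2 [h2]
        rw [pow_succ]
        ring
      · rw [if_neg (by show ¬ ((i : ℕ) - 1 + j + 1 = 2 * m); omega), if_neg (by rw [Fin.val_rev]; omega), mul_zero, neg_zero]
    · intro k _ hk
      rw [Matrix.transpose_apply]
      unfold NN
      rw [Matrix.of_apply, if_neg, zero_mul]
      intro h
      apply hk
      exact Fin.ext (by show (k : ℕ) = (i : ℕ) - 1; omega)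
    · intro h
      exact absurd (Finset.mem_univ _) h

lemma SSq_det (m : ℕ) : (SS ℚ (2 * m)).det ≠ 0 := SS_det m

lemma SSq_tr (m : ℕ) : (SS ℚ (2 * m))ᵀ = -SS ℚ (2 * m) := SS_tr m

/-- **The data at one point.** -/
theorem pd_gen (hm : 1 ≤ m) {p : Matrix (Fin (2 * m)) (Fin (2 * m)) ℂ}
    (hp : pᵀ * SS ℂ (2 * m) * p = SS ℂ (2 * m)) {C : Matrix (Fin (2 * m)) (Fin (2 * m)) ℂ}
    {M A : Matrix (Fin (2 * m)) (Fin (2 * m)) ℚ} {q κ : ℂ} (hC : C.det ≠ 0)
    (hM : C * cq M = q • (NN ℂ (2 * m) * C)) (hκ : κ ≠ 0) (hA : C * cq A * Cᵀ = κ • SS ℂ (2 * m))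
    {Fil H : ℕ → Submodule ℂ (Fin (2 * m) → ℂ)}
    (hFil : ∀ i, m ≤ i → Fil i = Submodule.span ℂ {v | ∃ a : Fin (2 * m), (a : ℕ) + i < 2 * m ∧ v = p a ᵥ* C})
    (hH : Polarised Fil A H) :
    ∃ (B Λ Φ : Matrix (Fin (2 * m)) (Fin (2 * m)) ℂ) (c : ℂ),
      PD (SS ℚ (2 * m)) 1 q p C B Λ Φ M A (-κ) c ∧
      (∀ p < 2 * m, ∀ v ∈ H p, v ᵥ* Φ = (p : ℂ) • v) := by
  set S := SS ℂ (2 * m) with hS
  have hCu : IsUnit C.det := isUnit_iff_ne_zero.2 hC
  have hCTu : IsUnit Cᵀ.det := by rwa [Matrix.det_transpose]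
  have hSS : S * S = -1 := SS_sq m
  have hSt : Sᵀ = -S := SS_tr m
  have hAt : Aᵀ = -A := by
    apply cq_inj
    rw [cq_neg, cq_tr]
    have h1 : C * (cq A)ᵀ * Cᵀ = C * (-cq A) * Cᵀ := by
      have h2 := congrArg Matrix.transpose hA
      rw [Matrix.transpose_mul, Matrix.transpose_mul, Matrix.transpose_transpose, Matrix.transpose_smul, hSt, smul_neg,
        ← hA] at h2
      rw [Matrix.mul_neg, Matrix.neg_mul, ← h2, Matrix.mul_assoc]
    have h2 := congrArg (fun Z => C⁻¹ * Z * Cᵀ⁻¹) h1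
    have h3 : ∀ Z : Matrix (Fin (2 * m)) (Fin (2 * m)) ℂ, C⁻¹ * (C * Z * Cᵀ) * Cᵀ⁻¹ = Z := by
      intro Z
      calc C⁻¹ * (C * Z * Cᵀ) * Cᵀ⁻¹ = (C⁻¹ * C) * Z * (Cᵀ * Cᵀ⁻¹) := by simp only [Matrix.mul_assoc]
        _ = Z := by rw [Matrix.nonsing_inv_mul _ hCu, Matrix.mul_nonsing_inv _ hCTu, Matrix.one_mul, Matrix.mul_one]
    simp only [h3] at h2
    exact h2
  -- `p` as an isometry on the other side
  have hpS : p * S * pᵀ = S := by
    have h1 : (-(S * pᵀ * S)) * p = 1 := by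
      rw [Matrix.neg_mul, Matrix.mul_assoc, Matrix.mul_assoc, ← Matrix.mul_assoc pᵀ, hp, hSS, neg_neg]
    have h2 : p * (-(S * pᵀ * S)) = 1 := mul_eq_one_comm.1 h1
    have h3 : p * S * pᵀ * S = -1 := by
      have h4 : p * (-(S * pᵀ * S)) = -(p * S * pᵀ * S) := by
        rw [Matrix.mul_neg]
        simp only [Matrix.mul_assoc]
      rw [h4] at h2
      rw [← h2, neg_neg]
    calc p * S * pᵀ = -(p * S * pᵀ * (S * S)) := by rw [hSS, Matrix.mul_neg, Matrix.mul_one, neg_neg]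
      _ = -((p * S * pᵀ * S) * S) := by simp only [Matrix.mul_assoc]
      _ = S := by rw [h3, Matrix.neg_mul, Matrix.one_mul, neg_neg]
  set P := p * C with hP
  have hPA : P * cq A * Pᵀ = κ • S := by
    calc P * cq A * Pᵀ = p * (C * cq A * Cᵀ) * pᵀ := by
          rw [hP, Matrix.transpose_mul]
          simp only [Matrix.mul_assoc]
      _ = _ := by rw [hA, Matrix.mul_smul, Matrix.smul_mul, hpS]
  have hPd : P.det ≠ 0 := by
    intro h0
    have h1 := congrArg Matrix.det hPA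
    rw [Matrix.det_mul, Matrix.det_mul, h0, zero_mul, zero_mul, Matrix.det_smul] at h1
    exact mul_ne_zero (pow_ne_zero _ hκ) (SS_det m) h1.symm
  have hProw : ∀ a : Fin (2 * m), P a = p a ᵥ* C := fun a => rfl
  obtain ⟨B, Λ, c, hc, hBA, hBs, hBH, hBL, hLl⟩ := Pool.Agent.Y31.MT.idx m hm Fil H A P hH hAt hPd (by
    intro a b hab
    rw [hPA, Matrix.smul_apply, hS, SS_apply, if_neg (by omega)]
    simp) (by
    intro i hi
    rw [hFil _ (by omega)]
    congr 1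
    ext v
    constructor
    · rintro ⟨a, ha, rfl⟩
      exact ⟨a, by omega, rfl⟩
    · rintro ⟨a, ha, rfl⟩
      exact ⟨a, by omega, rfl⟩)
  have hBd : B.det ≠ 0 := by
    intro h0
    have h1 := congrArg Matrix.det hBA
    rw [Matrix.det_mul, Matrix.det_mul, h0, zero_mul, zero_mul, Matrix.det_smul] at h1
    exact mul_ne_zero (pow_ne_zero _ hc) (SS_det m) h1.symm
  have hBu : IsUnit B.det := isUnit_iff_ne_zero.2 hBd
  set Dg : Matrix (Fin (2 * m)) (Fin (2 * m)) ℂ := Matrix.diagonal (fun i : Fin (2 * m) => ((2 * m - 1 - (i : ℕ) : ℕ) : ℂ)) with hDg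
  have hBP : B * (B⁻¹ * Dg * B) = Dg * B := by
    rw [← Matrix.mul_assoc, ← Matrix.mul_assoc, Matrix.mul_nonsing_inv _ hBu, Matrix.one_mul]
  have hone : cq (1 : Matrix (Fin (2 * m)) (Fin (2 * m)) ℚ) = 1 := by
    ext i j
    rw [cq_apply, Matrix.one_apply, Matrix.one_apply]
    split_ifs <;> simp
  refine ⟨B, Λ, B⁻¹ * Dg * B, c, ⟨by rw [cq_SS]; exact hp, neg_ne_zero.2 hκ, hc, hM, ?_, ?_, hLl, hBA, hBs, hBP⟩, ?_⟩
  · rw [hA, SSq_inv, smul_neg, neg_smul, neg_neg]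
  · rw [hBL, hone, Matrix.one_mul]
  · intro p hp v hv
    set w := v ᵥ* B⁻¹ with hw
    have hvw : v = w ᵥ* B := by
      rw [hw, vecMul_vecMul, Matrix.nonsing_inv_mul _ hBu, vecMul_one]
    have hw0 : ∀ i : Fin (2 * m), (i : ℕ) ≠ 2 * m - 1 - p → w i = 0 := by
      intro i hi
      have h1 : v ⬝ᵥ (cq A *ᵥ B (Fin.rev i)) = 0 := by
        have hrev : ((Fin.rev i : Fin (2 * m)) : ℕ) = 2 * m - (i + 1) := Fin.val_rev i
        have hi2 := i.2
        refine hH.orth p hp (2 * m - 1 - (Fin.rev i : Fin (2 * m))) (by omega) (by omega) v hv _ (hBH _)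
      have h2 : v ⬝ᵥ (cq A *ᵥ B (Fin.rev i)) = (w ᵥ* (B * cq A * Bᵀ)) (Fin.rev i) := by
        rw [← vecMul_vecMul, ← vecMul_vecMul, ← hvw, Matrix.dotProduct_mulVec]
        rfl
      rw [h2, hBA] at h1
      have h3 : (w ᵥ* (c • SS ℂ (2 * m))) (Fin.rev i) = c * (w i * (-1) ^ (i : ℕ)) := by
        rw [Matrix.vecMul_smul, Pi.smul_apply, smul_eq_mul]
        congr 1
        show ∑ j, w j * SS ℂ (2 * m) j (Fin.rev i) = _
        rw [Finset.sum_eq_single i]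
        · unfold SS
          rw [Matrix.of_apply, if_pos (by rw [Fin.val_rev]; have := i.2; omega)]
        · intro j _ hj
          unfold SS
          rw [Matrix.of_apply, if_neg, mul_zero]
          intro h4
          apply hj
          rw [Fin.val_rev] at h4
          have := i.2
          have := j.2
          exact Fin.ext (by omega)
        · intro h4
          exact absurd (Finset.mem_univ _) h4
      rw [h3] at h1
      have h5 := (mul_eq_zero.1 h1).resolve_left hc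
      exact (mul_eq_zero.1 h5).resolve_right (pow_ne_zero _ (by norm_num))
    have h6 : v ᵥ* (B⁻¹ * Dg * B) = (w ᵥ* Dg) ᵥ* B := by
      rw [← vecMul_vecMul, ← vecMul_vecMul]
    rw [h6]
    have h7 : w ᵥ* Dg = (p : ℂ) • w := by
      funext i
      rw [hDg, Matrix.vecMul_diagonal, Pi.smul_apply, smul_eq_mul]
      by_cases hi : (i : ℕ) = 2 * m - 1 - p
      · rw [hi, show 2 * m - 1 - (2 * m - 1 - p) = p by omega, mul_comm]
      · rw [hw0 i hi, zero_mul, mul_zero]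
    rw [h7, Matrix.smul_vecMul, ← hvw]

end

/-- **Generic pairs of fibres of Calabi–Yau type are jointly Hodge generic.** -/
theorem mt_gen {r : ℕ} {m : Fin r → ℕ} (hm : ∀ i, 4 ≤ m i) :
    ∃ N : ℕ, ∀ (s : ℕ) (c : Fin s → Fin r) (p : ∀ a, Matrix (Fin (2 * m (c a))) (Fin (2 * m (c a))) ℂ),
    (∀ a, (p a)ᵀ * SS ℂ (2 * m (c a)) * p a = SS ℂ (2 * m (c a))) →
    (∀ a, GenS N (SS ℚ (2 * m (c a))) (p a)) →
    (∀ a a', a ≠ a' → GenP N (SS ℚ (2 * m (c a))) (SS ℚ (2 * m (c a'))) (p a) (p a')) →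
    ∀ (C : ∀ a, Matrix (Fin (2 * m (c a))) (Fin (2 * m (c a))) ℂ)
      (M A : ∀ a, Matrix (Fin (2 * m (c a))) (Fin (2 * m (c a))) ℚ) (q κ : Fin s → ℂ), (∀ a, (C a).det ≠ 0) →
    (∀ a, q a ≠ 0) → (∀ a, C a * cq (M a) = q a • (NN ℂ (2 * m (c a)) * C a)) → (∀ a, κ a ≠ 0) →
    (∀ a, C a * cq (A a) * (C a)ᵀ = κ a • SS ℂ (2 * m (c a))) →
    ∀ (Fil H : ∀ a, ℕ → Submodule ℂ (Fin (2 * m (c a)) → ℂ)),
    (∀ a i, m (c a) ≤ i → Fil a i = Submodule.span ℂ {v | ∃ b : Fin (2 * m (c a)), (b : ℕ) + i < 2 * m (c a) ∧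
      v = p a b ᵥ* C a}) →
    (∀ a, Polarised (Fil a) (A a) (H a)) →
    ∀ V : Submodule ℚ (∀ a, Matrix (Fin (2 * m (c a))) (Fin (2 * m (c a))) ℚ),
    (∀ X ∈ V, ∀ Y ∈ V, (fun a => X a * Y a - Y a * X a) ∈ V) →
    (∀ Φ : ∀ a, Matrix (Fin (2 * m (c a))) (Fin (2 * m (c a))) ℂ,
      (∀ a, ∀ p < 2 * m (c a), ∀ v ∈ H a p, v ᵥ* Φ a = (p : ℂ) • v) →
      Φ ∈ Submodule.span ℂ (tq '' (V : Set (∀ a, Matrix (Fin (2 * m (c a))) (Fin (2 * m (c a))) ℚ)))) →
    ∀ X : ∀ a, Matrix (Fin (2 * m (c a))) (Fin (2 * m (c a))) ℚ, (∀ a, X a * A a + A a * (X a)ᵀ = 0) → X ∈ V := by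
  classical
  have hm1 : ∀ i, 1 ≤ m i := fun i => by have := hm i; omega
  choose N1 hN1 using fun i => single_lem (hm i) (Δ := 1) (SSq_det (m i)) (SSq_tr (m i)) (NN_SS (m i))
  choose N2 hN2 using fun i j => pair_lem (hm i) (hm j) (Δ := 1) (Δ' := 1) (SSq_det (m i)) (SSq_tr (m i)) (NN_SS (m i))
    (SSq_det (m j)) (SSq_tr (m j)) (NN_SS (m j))
  set N := max (Finset.univ.sup N1) (Finset.univ.sup fun x : Fin r × Fin r => N2 x.1 x.2) with hN
  have hN1' : ∀ i, N1 i ≤ N := fun i => (Finset.le_sup (f := N1) (Finset.mem_univ i)).trans (le_max_left _ _)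
  have hN2' : ∀ i j, N2 i j ≤ N := fun i j =>
    (Finset.le_sup (f := fun x : Fin r × Fin r => N2 x.1 x.2) (Finset.mem_univ (i, j))).trans (le_max_right _ _)
  refine ⟨N, fun s c p hp hS hP C M A q κ hC hq hM hκ hA Fil H hFil hH V hV hΦ X hX => ?_⟩
  -- the data
  choose B Λ Φ c' hPD hHo using fun a => pd_gen (hm1 (c a)) (hp a) (hC a) (hM a) (hκ a) (hA a)
    (hFil a) (hH a)
  -- the reduction to similitudes
  set V' := V ⊓ gspT A with hV'
  have hΦV : Φ ∈ Submodule.span ℂ (tq '' (V' : Set (∀ a, Matrix (Fin (2 * m (c a))) (Fin (2 * m (c a))) ℚ))) := by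
    refine span_ap fun φ => ⟨ap_mem (hΦ Φ hHo) φ, fun a => ⟨φ (((2 * m (c a) - 1 : ℕ) : ℂ)), ?_⟩⟩
    have h1 := (hPD a).PhiA
    ext i j
    have h2 := congrArg φ (congrFun (congrFun h1 i) j)
    rw [Matrix.add_apply, Matrix.mul_apply, Matrix.mul_apply, map_add, map_sum, map_sum, Matrix.smul_apply, smul_eq_mul,
      cq_apply, phi_mul] at h2
    rw [Matrix.add_apply, Matrix.mul_apply, Matrix.mul_apply, Matrix.smul_apply, smul_eq_mul, ← h2]
    congr 1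
    · refine Finset.sum_congr rfl fun k _ => ?_
      rw [cq_apply, phi_mul]
      rfl
    · refine Finset.sum_congr rfl fun k _ => ?_
      rw [cq_apply, Matrix.transpose_apply, mul_comm (((A a i k : ℚ)) : ℂ), phi_mul, Matrix.transpose_apply, mul_comm]
      rfl
  have hbr : ∀ X ∈ V', ∀ Y ∈ V', (fun a => X a * Y a - Y a * X a) ∈ V' := by
    rintro X ⟨hX1, hX2⟩ Y ⟨hY1, hY2⟩
    refine ⟨hV X hX1 Y hY1, fun a => ⟨0, ?_⟩⟩
    obtain ⟨t, ht⟩ := hX2 a
    obtain ⟨t', ht'⟩ := hY2 a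
    rw [zero_smul]
    exact br_gsp ht ht'
  have hmain : X ∈ V' := by
    refine ribet A (fun a => (hPD a).Askew) (fun a => (hPD a).Adet) V' hbr ?_ ?_ X hX
    · intro a a' haa Z hZ
      have h1 := hN2 (c a) (c a') (q a) _ (C a) (B a) (Λ a) (Φ a) (M a) (A a) _ (c' a) (q a') _ (C a') (B a') (Λ a')
        (Φ a') (M a') (A a') _ (c' a') (hq a) (hq a') (hPD a) (hPD a') ((hP a a' haa).mono (hN2' _ _))
        (V'.map (LinearMap.prod (LinearMap.proj a) (LinearMap.proj a'))) (by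
          rintro _ ⟨u, hu, rfl⟩ _ ⟨v, hv, rfl⟩
          exact ⟨_, hbr u hu v hv, rfl⟩) (by
          have h2 : (Φ a, Φ a') ∈ (Submodule.span ℂ (tq '' (V' : Set (∀ a, Matrix (Fin (2 * m (c a))) (Fin (2 * m (c a))) ℚ)))).map
            (LinearMap.prod (LinearMap.proj a) (LinearMap.proj a')) := ⟨_, hΦV, rfl⟩
          rw [Submodule.map_span] at h2
          refine Submodule.span_mono ?_ h2
          rintro _ ⟨_, ⟨z, hz, rfl⟩, rfl⟩
          exact ⟨(z a, z a'), ⟨z, hz, rfl⟩, rfl⟩) (by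
          rintro _ ⟨u, hu, rfl⟩
          exact hu.2 a) (by
          rintro _ ⟨u, hu, rfl⟩
          exact hu.2 a') Z hZ
      obtain ⟨Y, hY, hYe⟩ := h1
      exact ⟨Y, hY, congrArg Prod.fst hYe, congrArg Prod.snd hYe⟩
    · intro a Z hZ
      have h1 := hN1 (c a) (q a) _ (C a) (B a) (Λ a) (Φ a) (M a) (A a) _ (c' a) (hq a) (hPD a) ((hS a).mono (hN1' _))
        (V'.map (LinearMap.proj a)) (by
          rintro _ ⟨u, hu, rfl⟩ _ ⟨v, hv, rfl⟩
          exact ⟨_, hbr u hu v hv, rfl⟩) (by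
          have h2 : Φ a ∈ (Submodule.span ℂ (tq '' (V' : Set (∀ a, Matrix (Fin (2 * m (c a))) (Fin (2 * m (c a))) ℚ)))).map
            (LinearMap.proj a) := ⟨_, hΦV, rfl⟩
          rw [Submodule.map_span] at h2
          refine Submodule.span_mono ?_ h2
          rintro _ ⟨_, ⟨z, hz, rfl⟩, rfl⟩
          exact ⟨z a, ⟨z, hz, rfl⟩, rfl⟩) Z hZ
      obtain ⟨Y, hY, hYe⟩ := h1
      exact ⟨Y, hY, hYe⟩
  exact hmain.1

end Pool.Agent.W2helper4.CY
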