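import Pool.Agent.W2helper4.CY.Rel
import Pool.Agent.W2helper4.CY.Mt

/-!
# Values of matrices of power series, direct sums of systems, change of the initial value
-/

set_option autoImplicit false
set_option maxHeartbeats 1000000

open Matrix PowerSeries Pool.Agent.Y113

namespace Pool.Agent.W2helper4.CY

open Pool.Agent.W2helper4.HJ
open Pool.Agent.Y119.HY (cm)
open Pool.Agent.Y916.Al (Ht evc Cvc)
open Pool.Agent.Y119.HZ
open Pool.Agent.Y113.MT (cq NN NN_eq)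
open Pool.Agent.Y113.MT

section ev
variable {n : ℕ}

/-- convergence of power series of geometric growth -/
lemma cvc_of_size {f : ℚ⟦X⟧} {C : ℝ} (hC : ∀ m, |((coeff m f : ℚ) : ℝ)| ≤ C ^ (m + 1)) {α : ℂ} (hα : |C| < ‖α‖) :
    Cvc (1 / α) f := by
  have hα0 : 0 < ‖α‖ := lt_of_le_of_lt (abs_nonneg C) hα
  have hq0 : 0 ≤ |C| / ‖α‖ := by positivity
  have hq1 : |C| / ‖α‖ < 1 := by
    rw [div_lt_one hα0]
    exact hα
  refine Summable.of_nonneg_of_le (fun m => by positivity) (fun m => ?_)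
    ((summable_geometric_of_lt_one hq0 hq1).mul_left |C|)
  have h1 : ‖((coeff m f : ℚ) : ℂ)‖ ≤ |C| ^ (m + 1) := by
    have h2 : ‖((coeff m f : ℚ) : ℂ)‖ = |((coeff m f : ℚ) : ℝ)| := by
      rw [← Complex.ofReal_ratCast, Complex.norm_real, Real.norm_eq_abs]
    rw [h2]
    refine (hC m).trans ?_
    rw [← abs_pow]
    exact le_abs_self _
  rw [norm_div, norm_one]
  calc ‖((coeff m f : ℚ) : ℂ)‖ * (1 / ‖α‖) ^ m ≤ |C| ^ (m + 1) * (1 / ‖α‖) ^ m :=
        mul_le_mul_of_nonneg_right h1 (by positivity)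
    _ = |C| * (|C| / ‖α‖) ^ m := by
        rw [pow_succ', div_pow, div_pow, one_pow]
        ring

lemma cvc_of_sdc {f : ℚ⟦X⟧} (h : SDc f) : ∃ b : ℕ, ∀ α : ℂ, (b : ℝ) < ‖α‖ → Cvc (1 / α) f := by
  obtain ⟨k, hk⟩ := h
  refine ⟨2 ^ k, fun α hα => cvc_of_size hk.1 ?_⟩
  rw [abs_of_nonneg (by positivity)]
  push_cast at hα
  exact hα

/-- a common domain of convergence -/
lemma cvc_all {ι : Type} [Finite ι] {f : ι → ℚ⟦X⟧} (h : ∀ i, SDc (f i)) :
    ∃ b : ℕ, ∀ α : ℂ, (b : ℝ) < ‖α‖ → ∀ i, Cvc (1 / α) (f i) := by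
  choose b hb using fun i => cvc_of_sdc (h i)
  obtain ⟨B, hB⟩ := (Set.finite_range b).bddAbove
  refine ⟨B, fun α hα i => hb i α (lt_of_le_of_lt ?_ hα)⟩
  exact_mod_cast hB ⟨i, rfl⟩

lemma Mv_mul {A B : Matrix (Fin n) (Fin n) ℚ⟦X⟧} {z : ℂ} (hA : ∀ i j, Cvc z (A i j)) (hB : ∀ i j, Cvc z (B i j)) :
    Mv (A * B) z = Mv A z * Mv B z := by
  ext i j
  unfold Mv
  rw [Matrix.of_apply, Matrix.mul_apply, Matrix.mul_apply, Cvc.ev_sum _ _ fun k _ => (hA i k).mul (hB k j)]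
  refine Finset.sum_congr rfl fun k _ => ?_
  rw [Cvc.ev_mul (hA i k) (hB k j)]
  rfl

lemma Cvc_mul {A B : Matrix (Fin n) (Fin n) ℚ⟦X⟧} {z : ℂ} (hA : ∀ i j, Cvc z (A i j)) (hB : ∀ i j, Cvc z (B i j)) (i j) :
    Cvc z ((A * B) i j) := by
  rw [Matrix.mul_apply]
  exact Cvc.sum _ _ fun k _ => (hA i k).mul (hB k j)

/-- a constant matrix -/
noncomputable def cM (M : Matrix (Fin n) (Fin n) ℚ) : Matrix (Fin n) (Fin n) ℚ⟦X⟧ := M.map fun x => (C x : ℚ⟦X⟧)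

lemma cM_apply (M : Matrix (Fin n) (Fin n) ℚ) (i j : Fin n) : cM M i j = C (M i j) := rfl

lemma cM_mul (M M' : Matrix (Fin n) (Fin n) ℚ) : cM (M * M') = cM M * cM M' := by
  ext1 i j
  rw [cM_apply, Matrix.mul_apply, Matrix.mul_apply, map_sum]
  exact Finset.sum_congr rfl fun k _ => by rw [map_mul]; rfl

lemma cM_one : cM (1 : Matrix (Fin n) (Fin n) ℚ) = 1 := by
  ext1 i j
  rw [cM_apply, Matrix.one_apply, Matrix.one_apply]
  split_ifs <;> simp

lemma cM_tr (M : Matrix (Fin n) (Fin n) ℚ) : cM Mᵀ = (cM M)ᵀ := rfl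

lemma cM_neg (M : Matrix (Fin n) (Fin n) ℚ) : cM (-M) = -cM M := by
  ext1 i j
  rw [cM_apply, Matrix.neg_apply, Matrix.neg_apply, map_neg, cM_apply]

lemma Mv_cM (M : Matrix (Fin n) (Fin n) ℚ) (z : ℂ) : Mv (cM M) z = cq M := by
  ext i j
  show evc z (cM M i j) = _
  rw [cM_apply, Pool.Agent.Y916.Al.ev_C]
  rfl

lemma Cvc_cM (M : Matrix (Fin n) (Fin n) ℚ) (z : ℂ) (i j) : Cvc z (cM M i j) := by
  rw [cM_apply]
  exact Cvc.C _

lemma Mv_tr (A : Matrix (Fin n) (Fin n) ℚ⟦X⟧) (z : ℂ) : Mv Aᵀ z = (Mv A z)ᵀ := rfl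

end ev

section sum
variable {r : ℕ} {n : Fin r → ℕ} {N : ∀ i, Matrix (Fin (n i)) (Fin (n i)) ℤ}
  {H W : ∀ i, Matrix (Fin (n i)) (Fin (n i)) ℚ⟦X⟧} {T : Polynomial ℤ} {A : ∀ i, Fin (n i) → Fin (n i) → Polynomial ℤ}

lemma US_mulT {n : ℕ} {N : Matrix (Fin n) (Fin n) ℤ} {H W : Matrix (Fin n) (Fin n) ℚ⟦X⟧} {T : Polynomial ℤ}
    {A : Fin n → Fin n → Polynomial ℤ} (h : US N H W T A) {S : Polynomial ℤ} (hS : S ≠ 0) :
    US N H W (S * T) (fun i j => S * A i j) := by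
  refine ⟨h.nil, h.inv, fun i j => ?_, h.zero, h.gH, h.gW, mul_ne_zero hS h.T0⟩
  have e : ∀ P Q : Polynomial ℤ, ps (P * Q) = ps P * ps Q := fun P Q => map_mul psR P Q
  simp only [e]
  rw [mul_assoc, h.ode i j, Finset.mul_sum]
  exact Finset.sum_congr rfl fun k _ => by rw [mul_assoc]

/-- direct sums -/
theorem us_bd (h : ∀ i, US (N i) (H i) (W i) T (A i)) (hT : T ≠ 0) :
    US (bd N) (bd H) (bd W) T (fun p q => bd (fun i => Matrix.of (A i)) p q) := by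
  have hrm : rm (bd N) = bd fun i => rm (N i) := by
    unfold rm
    exact bd_map _ (map_zero _) _
  refine ⟨?_, ?_, ?_, ?_, ?_, ?_, hT⟩
  · rw [hrm, ← bd_pow]
    have h1 : (fun i => rm (N i) ^ (∑ i, n i)) = fun i => (0 : Matrix (Fin (n i)) (Fin (n i)) ℚ) := by
      funext i
      exact pow_eq_zero_of_le (n_le i) (h i).nil
    rw [h1, bd_zero]
  · rw [← bd_mul]
    have h1 : (fun i => H i * W i) = fun i => (1 : Matrix (Fin (n i)) (Fin (n i)) ℚ⟦X⟧) := funext fun i => (h i).inv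
    rw [h1, bd_one]
  · have hth : Matrix.of (fun p q => X * d⁄dX ℚ (bd H p q)) = bd fun i => Matrix.of fun a c =>
        X * d⁄dX ℚ (H i a c) := by
      refine bd_ext (fun i a c => ?_) (fun i j h a c => ?_)
      · rw [Matrix.of_apply, bd_same, bd_same, Matrix.of_apply]
      · rw [Matrix.of_apply, bd_diff _ h, bd_diff _ h, map_zero, mul_zero]
    have hkm : Matrix.of (fun p q => (C (rm (bd N) p q) : ℚ⟦X⟧)) = bd fun i => Matrix.of fun a c =>
        (C (rm (N i) a c) : ℚ⟦X⟧) := by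
      rw [hrm]
      exact bd_map (fun x : ℚ => (C x : ℚ⟦X⟧)) (map_zero _) _
    have hAA : Matrix.of (fun p q => ps (bd (fun i => Matrix.of (A i)) p q)) =
        bd fun i => Matrix.of fun a c => ps (A i a c) := by
      refine bd_ext (fun i a c => ?_) (fun i j h a c => ?_)
      · rw [Matrix.of_apply, bd_same, bd_same, Matrix.of_apply, Matrix.of_apply]
      · rw [Matrix.of_apply, bd_diff _ h, bd_diff _ h]
        exact map_zero psR
    have key : ps T • (Matrix.of (fun p q => X * d⁄dX ℚ (bd H p q)) +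
        bd H * Matrix.of (fun p q => (C (rm (bd N) p q) : ℚ⟦X⟧))) =
        Matrix.of (fun p q => ps (bd (fun i => Matrix.of (A i)) p q)) * bd H := by
      rw [hth, hkm, hAA, ← bd_mul, ← bd_add, ← bd_smul, ← bd_mul]
      congr 1
      funext i
      refine Matrix.ext fun a c => ?_
      rw [Matrix.smul_apply, Matrix.add_apply, Matrix.mul_apply, Matrix.mul_apply, smul_eq_mul]
      exact (h i).ode a c
    intro i j
    have h1 := congrFun (congrFun key i) j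
    rw [Matrix.smul_apply, Matrix.add_apply, Matrix.mul_apply, Matrix.mul_apply, smul_eq_mul] at h1
    exact h1
  · intro p q
    have h1 : (bd H).map (coeff 0) = 1 := by
      rw [bd_map _ (map_zero _)]
      have h2 : (fun i => (H i).map (coeff (R := ℚ) 0)) =
          fun i => (1 : Matrix (Fin (n i)) (Fin (n i)) ℚ) := by
        funext i
        ext a b
        rw [Matrix.map_apply, (h i).zero, Matrix.one_apply]
      rw [h2, bd_one]
    have h2 := congrFun (congrFun h1 p) q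
    rw [Matrix.map_apply, Matrix.one_apply] at h2
    exact h2
  · exact fun p q => bd_all (P := SDc) SDc_zero (fun i a c => (h i).gH a c) p q
  · exact fun p q => bd_all (P := SDc) SDc_zero (fun i a c => (h i).gW a c) p q

end sum

/-! ### normalisation of the initial value -/

section norm
variable {m : ℕ}

/-- a fundamental matrix of Calabi–Yau type -/
structure FV (e : ℕ) (P : Matrix (Fin (2 * m)) (Fin (2 * m)) ℚ⟦X⟧) : Prop where
  form : Pᵀ * cM (SS ℚ (2 * m)) * P = cM (SS ℚ (2 * m))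
  gfun : ∀ i j, SDc (P i j)
  ode : ∃ (T : Polynomial ℤ) (A : Fin (2 * m) → Fin (2 * m) → Polynomial ℤ), T ≠ 0 ∧ ∀ i j,
    ps T * (X * d⁄dX ℚ (P i j) + ∑ k, P i k * C ((e : ℚ) * NN ℚ (2 * m) k j)) = ∑ k, ps (A i k) * P k j

/-- the initial value -/
noncomputable def P0 (P : Matrix (Fin (2 * m)) (Fin (2 * m)) ℚ⟦X⟧) : Matrix (Fin (2 * m)) (Fin (2 * m)) ℚ :=
  P.map (coeff (R := ℚ) 0)

/-- its inverse -/
noncomputable def P0i (P : Matrix (Fin (2 * m)) (Fin (2 * m)) ℚ⟦X⟧) : Matrix (Fin (2 * m)) (Fin (2 * m)) ℚ :=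
  -(SS ℚ (2 * m) * (P0 P)ᵀ * SS ℚ (2 * m))

lemma P0_form {e : ℕ} {P : Matrix (Fin (2 * m)) (Fin (2 * m)) ℚ⟦X⟧} (h : FV e P) :
    (P0 P)ᵀ * SS ℚ (2 * m) * P0 P = SS ℚ (2 * m) := by
  have h1 := congrArg (fun Z : Matrix (Fin (2 * m)) (Fin (2 * m)) ℚ⟦X⟧ => Z.map (constantCoeff (R := ℚ))) h.form
  simp only [Matrix.map_mul] at h1
  have e1 : ∀ Z : Matrix (Fin (2 * m)) (Fin (2 * m)) ℚ⟦X⟧, Z.map (constantCoeff (R := ℚ)) = P0 Z := by
    intro Z
    ext i j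
    unfold P0
    rw [Matrix.map_apply, Matrix.map_apply, coeff_zero_eq_constantCoeff_apply]
  have e2 : (cM (SS ℚ (2 * m))).map (constantCoeff (R := ℚ)) = SS ℚ (2 * m) := by
    ext i j
    rw [Matrix.map_apply, cM_apply, constantCoeff_C]
  rw [e2, e1, e1] at h1
  exact h1

lemma P0i_mul {e : ℕ} {P : Matrix (Fin (2 * m)) (Fin (2 * m)) ℚ⟦X⟧} (h : FV e P) : P0i P * P0 P = 1 := by
  unfold P0i
  rw [Matrix.neg_mul, Matrix.mul_assoc, Matrix.mul_assoc, ← Matrix.mul_assoc (P0 P)ᵀ, P0_form h,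
    Pool.Agent.Y113.MT.SS_sq, neg_neg]

lemma mul_P0i {e : ℕ} {P : Matrix (Fin (2 * m)) (Fin (2 * m)) ℚ⟦X⟧} (h : FV e P) : P0 P * P0i P = 1 :=
  mul_eq_one_comm.1 (P0i_mul h)

lemma sdc_sum {ι : Type*} (s : Finset ι) {f : ι → ℚ⟦X⟧} (h : ∀ i, SDc (f i)) : SDc (∑ i ∈ s, f i) := by
  classical
  induction s using Finset.induction_on with
  | empty => simpa using SDc_zero
  | insert a s ha ih =>
    rw [Finset.sum_insert ha]
    exact (h a).add ih

lemma sdc_mul {n : ℕ} {A B : Matrix (Fin n) (Fin n) ℚ⟦X⟧} (hA : ∀ i j, SDc (A i j)) (hB : ∀ i j, SDc (B i j)) (i j) :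
    SDc ((A * B) i j) := by
  rw [Matrix.mul_apply]
  exact sdc_sum _ fun k => (hA i k).mul (hB k j)

lemma sdc_cM {n : ℕ} (M : Matrix (Fin n) (Fin n) ℚ) (i j) : SDc (cM M i j) := SDc_C _

/-- the nilpotent matrix -/
def NNZ (m e : ℕ) : Matrix (Fin (2 * m)) (Fin (2 * m)) ℤ := Matrix.of fun i j => if (j : ℕ) = i + 1 then (e : ℤ) else 0

lemma rm_NNZ (m e : ℕ) : rm (NNZ m e) = (e : ℚ) • NN ℚ (2 * m) := by
  ext i j
  unfold rm NNZ NN
  rw [Matrix.map_apply, Matrix.smul_apply, Matrix.of_apply, Matrix.of_apply]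
  split_ifs <;> simp

lemma NNq_nil (m : ℕ) : NN ℚ (2 * m) ^ (2 * m) = 0 := Pool.Agent.Y119.HY.Am_nil

lemma sdc_neg {f : ℚ⟦X⟧} (h : SDc f) : SDc (-f) := by
  have h1 := (SDc_C (-1)).mul h
  have e : (C (-1 : ℚ) : ℚ⟦X⟧) * f = -f := by
    rw [map_neg, map_one, neg_mul, one_mul]
  rwa [e] at h1

lemma isom_inv_form {R : Type*} [CommRing R] {n : ℕ} {S H : Matrix (Fin n) (Fin n) R} (hS : S * S = -1)
    (h : Hᵀ * S * H = S) : H * (-(S * Hᵀ * S)) = 1 := by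
  refine mul_eq_one_comm.1 ?_
  rw [Matrix.neg_mul, Matrix.mul_assoc, Matrix.mul_assoc, ← Matrix.mul_assoc Hᵀ, h, hS, neg_neg]

lemma cM_SS_sq (m : ℕ) : cM (SS ℚ (2 * m)) * cM (SS ℚ (2 * m)) = -1 := by
  rw [← cM_mul, Pool.Agent.Y113.MT.SS_sq, cM_neg, cM_one]

lemma P0i_form {e : ℕ} {P : Matrix (Fin (2 * m)) (Fin (2 * m)) ℚ⟦X⟧} (h : FV e P) :
    (P0i P)ᵀ * SS ℚ (2 * m) * P0i P = SS ℚ (2 * m) := by
  calc (P0i P)ᵀ * SS ℚ (2 * m) * P0i P = (P0i P)ᵀ * ((P0 P)ᵀ * SS ℚ (2 * m) * P0 P) * P0i P := by rw [P0_form h]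
    _ = (P0 P * P0i P)ᵀ * SS ℚ (2 * m) * (P0 P * P0i P) := by
        rw [Matrix.transpose_mul]
        simp only [Matrix.mul_assoc]
    _ = _ := by rw [mul_P0i h, Matrix.transpose_one, Matrix.one_mul, Matrix.mul_one]

/-- the normalised matrix -/
noncomputable def Hn (P : Matrix (Fin (2 * m)) (Fin (2 * m)) ℚ⟦X⟧) : Matrix (Fin (2 * m)) (Fin (2 * m)) ℚ⟦X⟧ :=
  cM (P0i P) * P

lemma Hn_form {e : ℕ} {P : Matrix (Fin (2 * m)) (Fin (2 * m)) ℚ⟦X⟧} (h : FV e P) :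
    (Hn P)ᵀ * cM (SS ℚ (2 * m)) * Hn P = cM (SS ℚ (2 * m)) := by
  unfold Hn
  calc (cM (P0i P) * P)ᵀ * cM (SS ℚ (2 * m)) * (cM (P0i P) * P) =
        Pᵀ * cM ((P0i P)ᵀ * SS ℚ (2 * m) * P0i P) * P := by
        rw [Matrix.transpose_mul, cM_mul, cM_mul, cM_tr]
        simp only [Matrix.mul_assoc]
    _ = _ := by rw [P0i_form h, h.form]

lemma cM_P0_Hn {e : ℕ} {P : Matrix (Fin (2 * m)) (Fin (2 * m)) ℚ⟦X⟧} (h : FV e P) : cM (P0 P) * Hn P = P := by
  unfold Hn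
  rw [← Matrix.mul_assoc, ← cM_mul, mul_P0i h, cM_one, Matrix.one_mul]

/-- the normalised matrix is a system with unipotent monodromy -/
theorem us_norm {e : ℕ} {P : Matrix (Fin (2 * m)) (Fin (2 * m)) ℚ⟦X⟧} (h : FV e P) :
    ∃ (T : Polynomial ℤ) (A : Fin (2 * m) → Fin (2 * m) → Polynomial ℤ),
      US (NNZ m e) (Hn P) (-(cM (SS ℚ (2 * m)) * (Hn P)ᵀ * cM (SS ℚ (2 * m)))) T A := by
  obtain ⟨T, A, hT, hode⟩ := h.ode
  obtain ⟨⟨D, hD⟩, hDi⟩ := IsLocalization.exist_integer_multiples_of_finite (nonZeroDivisors ℤ)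
    (fun x : (Fin (2 * m) × Fin (2 * m)) × (Fin (2 * m) × Fin (2 * m)) => P0i P x.1.1 x.1.2 * P0 P x.2.1 x.2.2)
  have hD0 : D ≠ 0 := nonZeroDivisors.ne_zero hD
  have hb : ∀ i a l k : Fin (2 * m), ∃ b : ℤ, (b : ℚ) = D * (P0i P i a * P0 P l k) := by
    intro i a l k
    obtain ⟨b, hb⟩ := hDi ((i, a), (l, k))
    refine ⟨b, ?_⟩
    have h1 : (b : ℚ) = (D : ℤ) • (P0i P i a * P0 P l k) := hb
    rw [h1, zsmul_eq_mul]
  choose b hb using hb
  set A' : Fin (2 * m) → Fin (2 * m) → Polynomial ℤ := fun i k => ∑ a, ∑ l, Polynomial.C (b i a l k) * A a l with hA'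
  have hpsC : ∀ z : ℤ, ps (Polynomial.C z) = C (z : ℚ) := by
    intro z
    unfold ps
    rw [Polynomial.map_C, Polynomial.coe_C]
    rfl
  have hpsm : ∀ P Q : Polynomial ℤ, ps (P * Q) = ps P * ps Q := fun P Q => map_mul psR P Q
  set θP : Matrix (Fin (2 * m)) (Fin (2 * m)) ℚ⟦X⟧ := Matrix.of fun i j => X * d⁄dX ℚ (P i j) with hθP
  set 𝒩 : Matrix (Fin (2 * m)) (Fin (2 * m)) ℚ⟦X⟧ := cM ((e : ℚ) • NN ℚ (2 * m)) with h𝒩
  set 𝒜 : Matrix (Fin (2 * m)) (Fin (2 * m)) ℚ⟦X⟧ := Matrix.of fun i j => ps (A i j) with h𝒜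
  have key0 : ps T • (θP + P * 𝒩) = 𝒜 * P := by
    ext1 i j
    rw [Matrix.smul_apply, Matrix.add_apply, Matrix.mul_apply, Matrix.mul_apply, smul_eq_mul]
    exact hode i j
  have hθ : (Matrix.of fun i j => X * d⁄dX ℚ (Hn P i j)) = cM (P0i P) * θP := by
    ext1 i j
    rw [Matrix.of_apply, Matrix.mul_apply]
    unfold Hn
    rw [Matrix.mul_apply, map_sum, Finset.mul_sum]
    refine Finset.sum_congr rfl fun k _ => ?_
    rw [cM_apply, Derivation.leibniz, smul_eq_mul, smul_eq_mul]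
    have h1 : d⁄dX ℚ (C (P0i P i k) : ℚ⟦X⟧) = 0 := by
      rw [← PowerSeries.algebraMap_eq]
      exact Derivation.map_algebraMap _ _
    rw [h1, mul_zero, add_zero, hθP, Matrix.of_apply]
    ring
  have h𝒜' : (Matrix.of fun i j => ps (A' i j)) = (C (D : ℚ) : ℚ⟦X⟧) • (cM (P0i P) * 𝒜 * cM (P0 P)) := by
    ext1 i k
    rw [Matrix.of_apply, Matrix.smul_apply, Matrix.mul_apply, smul_eq_mul, hA']
    have e1 : ps (∑ a, ∑ l, Polynomial.C (b i a l k) * A a l) = ∑ a, ∑ l, C (b i a l k : ℚ) * ps (A a l) := by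
      have h1 : psR (∑ a, ∑ l, Polynomial.C (b i a l k) * A a l) = ∑ a, ∑ l, psR (Polynomial.C (b i a l k) * A a l) := by
        rw [map_sum]
        exact Finset.sum_congr rfl fun a _ => map_sum _ _ _
      refine h1.trans (Finset.sum_congr rfl fun a _ => Finset.sum_congr rfl fun l _ => ?_)
      show ps (Polynomial.C (b i a l k) * A a l) = _
      rw [hpsm, hpsC]
    simp only
    rw [e1, Finset.mul_sum, Finset.sum_comm]
    refine Finset.sum_congr rfl fun l _ => ?_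
    rw [Matrix.mul_apply, Finset.sum_mul, Finset.mul_sum]
    refine Finset.sum_congr rfl fun a _ => ?_
    rw [hb, cM_apply, cM_apply, h𝒜, Matrix.of_apply, map_mul, map_mul]
    ring
  have key : ps (Polynomial.C D * T) • ((Matrix.of fun i j => X * d⁄dX ℚ (Hn P i j)) + Hn P * 𝒩) =
      (Matrix.of fun i j => ps (A' i j)) * Hn P := by
    rw [hθ, h𝒜', hpsm, hpsC, mul_smul, Matrix.smul_mul]
    congr 1
    calc ps T • (cM (P0i P) * θP + Hn P * 𝒩) = cM (P0i P) * (ps T • (θP + P * 𝒩)) := by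
          unfold Hn
          rw [Matrix.mul_smul, Matrix.mul_add, Matrix.mul_assoc]
      _ = cM (P0i P) * 𝒜 * P := by rw [key0, Matrix.mul_assoc]
      _ = _ := by
          have h5 : cM (P0i P) * 𝒜 * (cM (P0 P) * Hn P) = cM (P0i P) * 𝒜 * P := by rw [cM_P0_Hn h]
          rw [← h5]
          simp only [Matrix.mul_assoc]
  refine ⟨Polynomial.C D * T, A', ?_, isom_inv_form (cM_SS_sq m) (Hn_form h), ?_, ?_, ?_, ?_, ?_⟩
  · rw [rm_NNZ, smul_pow, NNq_nil, smul_zero]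
  · intro i j
    have h1 := congrFun (congrFun key i) j
    rw [Matrix.smul_apply, Matrix.add_apply, Matrix.mul_apply, Matrix.mul_apply, smul_eq_mul] at h1
    rw [rm_NNZ]
    exact h1
  · intro i j
    have h1 : coeff 0 (Hn P i j) = (P0i P * P0 P) i j := by
      unfold Hn
      rw [Matrix.mul_apply, Matrix.mul_apply, map_sum]
      refine Finset.sum_congr rfl fun k _ => ?_
      rw [cM_apply, coeff_C_mul]
      rfl
    rw [h1, P0i_mul h, Matrix.one_apply]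
  · exact fun i j => sdc_mul (sdc_cM _) h.gfun i j
  · intro i j
    rw [Matrix.neg_apply]
    exact sdc_neg (sdc_mul (sdc_mul (sdc_cM _) fun a b => sdc_mul (sdc_cM _) h.gfun b a) (sdc_cM _) i j)
  · exact mul_ne_zero (Polynomial.C_ne_zero.2 hD0) hT

end norm

end Pool.Agent.W2helper4.CY
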