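import Pool.Agent.W2helper4.CY.Ev

/-!
# Relations between the fibres of several general families at algebraic points near the origin
-/

set_option autoImplicit false
set_option maxHeartbeats 2000000

open Matrix PowerSeries Pool.Agent.Y113

namespace Pool.Agent.W2helper4.CY

open Pool.Agent.W2helper4.HJ Pool.Agent.W2helper4.MJ
open Pool.Agent.Y119.HY (cm)
open Pool.Agent.Y119.HZ
open Pool.Agent.Y916.Al (Ht evc Cvc)
open Pool.Agent.Y113.MT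

variable {r : ℕ} {m : Fin r → ℕ}

/-- the product of the symplectic groups -/
def GSp (m : Fin r → ℕ) : Submonoid (Matrix (Fin (∑ i, 2 * m i)) (Fin (∑ i, 2 * m i)) ℂ) where
  carrier := {g | ∃ γ : ∀ i, Matrix (Fin (2 * m i)) (Fin (2 * m i)) ℂ,
    (∀ i, (γ i)ᵀ * Pool.Agent.Y113.MT.SS ℂ (2 * m i) * γ i = Pool.Agent.Y113.MT.SS ℂ (2 * m i)) ∧ g = bd γ}
  one_mem' := ⟨fun i => 1, fun i => by rw [transpose_one, Matrix.one_mul, Matrix.mul_one], bd_one.symm⟩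
  mul_mem' := by
    rintro _ _ ⟨γ, h1, rfl⟩ ⟨δ, h2, rfl⟩
    exact ⟨fun i => γ i * δ i, fun i => sp_mul (h1 i) (h2 i), (bd_mul _ _).symm⟩

lemma mem_GSp {γ : ∀ i, Matrix (Fin (2 * m i)) (Fin (2 * m i)) ℂ}
    (h : ∀ i, (γ i)ᵀ * Pool.Agent.Y113.MT.SS ℂ (2 * m i) * γ i = Pool.Agent.Y113.MT.SS ℂ (2 * m i)) :
    bd γ ∈ GSp m := ⟨γ, h, rfl⟩

theorem pg_GSp (m : Fin r → ℕ) : PG (GSp m) := by
  refine ⟨?_, ?_⟩
  · rintro _ ⟨γ, hγ, rfl⟩
    choose M hM0 hM1 hM using fun i => Pool.Agent.Y118.CM.Pc_all (SS_tr (m i)) (SS_det (m i)) (γ i) (hγ i)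
    have e : ∀ c : ℂ, (bd M).map (Polynomial.eval c) = bd fun i => (M i).map (Polynomial.eval c) := fun c =>
      bd_map _ (Polynomial.eval_zero) M
    refine ⟨bd M, ?_, ?_, fun c => ?_⟩
    · rw [e]
      simp only [hM0]
      exact bd_one
    · rw [e]
      simp only [hM1]
    · rw [e]
      exact mem_GSp fun i => hM i c
  · rintro _ ⟨γ, hγ, rfl⟩
    choose W hW1 hW2 hW3 using fun i => isom_inv (SS_det (m i)) (hγ i)
    refine ⟨bd W, mem_GSp hW3, ?_⟩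
    rw [← bd_mul]
    simp only [hW1]
    exact bd_one

/-- all algebraic relations over `ℚ(x)` between the entries of the matrices hold on the product of the symplectic groups -/
def Max (P : ∀ i, Matrix (Fin (2 * m i)) (Fin (2 * m i)) ℚ⟦X⟧) : Prop :=
  ∀ F : MvPolynomial (Σ i, Fin (2 * m i) × Fin (2 * m i)) (Polynomial ℚ),
  MvPolynomial.aeval (fun v : Σ i, Fin (2 * m i) × Fin (2 * m i) => P v.1 v.2.1 v.2.2) F = 0 →
  ∀ (x : ℂ) (Z : ∀ i, Matrix (Fin (2 * m i)) (Fin (2 * m i)) ℂ),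
    (∀ i, (Z i)ᵀ * Pool.Agent.Y113.MT.SS ℂ (2 * m i) * Z i = Pool.Agent.Y113.MT.SS ℂ (2 * m i)) →
  MvPolynomial.eval₂ (Polynomial.aeval x : Polynomial ℚ →ₐ[ℚ] ℂ).toRingHom (fun v => Z v.1 v.2.1 v.2.2) F = 0

section
variable {e : Fin r → ℕ} {P : ∀ i, Matrix (Fin (2 * m i)) (Fin (2 * m i)) ℚ⟦X⟧}

lemma cqP0_form (h : ∀ i, FV (e i) (P i)) (i : Fin r) {γ : Matrix (Fin (2 * m i)) (Fin (2 * m i)) ℂ}
    (hγ : γᵀ * Pool.Agent.Y113.MT.SS ℂ (2 * m i) * γ = Pool.Agent.Y113.MT.SS ℂ (2 * m i)) :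
    (cq (P0 (P i)) * γ)ᵀ * Pool.Agent.Y113.MT.SS ℂ (2 * m i) * (cq (P0 (P i)) * γ) = Pool.Agent.Y113.MT.SS ℂ (2 * m i) := by
  have h1 := congrArg cq (P0_form (h i))
  rw [cq_mul, cq_mul, cq_tr, cq_SS] at h1
  exact sp_mul h1 hγ

lemma cqP0i_form (h : ∀ i, FV (e i) (P i)) (i : Fin r) {γ : Matrix (Fin (2 * m i)) (Fin (2 * m i)) ℂ}
    (hγ : γᵀ * Pool.Agent.Y113.MT.SS ℂ (2 * m i) * γ = Pool.Agent.Y113.MT.SS ℂ (2 * m i)) :
    (cq (P0i (P i)) * γ)ᵀ * Pool.Agent.Y113.MT.SS ℂ (2 * m i) * (cq (P0i (P i)) * γ) = Pool.Agent.Y113.MT.SS ℂ (2 * m i) := by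
  have h1 := congrArg cq (P0i_form (h i))
  rw [cq_mul, cq_mul, cq_tr, cq_SS] at h1
  exact sp_mul h1 hγ

lemma cq_one' {n : ℕ} : cq (1 : Matrix (Fin n) (Fin n) ℚ) = 1 := by
  ext i j
  rw [cq_apply, Matrix.one_apply, Matrix.one_apply]
  split_ifs <;> simp

/-- the relations for the direct sum of the normalised matrices -/
theorem rel_bd (h : ∀ i, FV (e i) (P i)) (hmax : Max P)
    (R : MvPolynomial (Fin ((∑ i, 2 * m i) * (∑ i, 2 * m i))) (Polynomial ℚ))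
    (hR : MvPolynomial.aeval (HJ.hg (bd fun i => Hn (P i))) R = 0) (z : ℂ) {g : Matrix (Fin (∑ i, 2 * m i)) (Fin (∑ i, 2 * m i)) ℂ}
    (hg : g ∈ GSp m) :
    MvPolynomial.eval₂ (Polynomial.aeval z : Polynomial ℚ →ₐ[ℚ] ℂ).toRingHom
      (fun i => g (ix (∑ i, 2 * m i) i).1 (ix (∑ i, 2 * m i) i).2) R = 0 := by
  obtain ⟨γ, hγ, rfl⟩ := hg
  set Xm : ∀ i, Matrix (Fin (2 * m i)) (Fin (2 * m i)) (MvPolynomial (Σ i, Fin (2 * m i) × Fin (2 * m i)) (Polynomial ℚ)) :=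
    fun i => Matrix.of fun a b => ∑ k, MvPolynomial.C (Polynomial.C (P0i (P i) a k)) *
      MvPolynomial.X (⟨i, (k, b)⟩ : Σ i, Fin (2 * m i) × Fin (2 * m i)) with hXm
  have hXa : ∀ i a b, Xm i a b = ∑ k, MvPolynomial.C (Polynomial.C (P0i (P i) a k)) *
      MvPolynomial.X (⟨i, (k, b)⟩ : Σ i, Fin (2 * m i) × Fin (2 * m i)) := fun _ _ _ => rfl
  set sub : Fin ((∑ i, 2 * m i) * (∑ i, 2 * m i)) → MvPolynomial (Σ i, Fin (2 * m i) × Fin (2 * m i)) (Polynomial ℚ) :=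
    fun a => bd Xm (ix _ a).1 (ix _ a).2 with hsub
  have h1 : MvPolynomial.aeval (fun v : Σ i, Fin (2 * m i) × Fin (2 * m i) => P v.1 v.2.1 v.2.2)
      (MvPolynomial.bind₁ sub R) = 0 := by
    rw [MvPolynomial.aeval_bind₁, ← hR]
    refine congrArg (fun z => MvPolynomial.aeval z R) (funext fun a => ?_)
    show MvPolynomial.aeval (fun v : Σ i, Fin (2 * m i) × Fin (2 * m i) => P v.1 v.2.1 v.2.2) (bd Xm _ _) = bd _ _ _
    have h2 := bd_map (fun q : MvPolynomial (Σ i, Fin (2 * m i) × Fin (2 * m i)) (Polynomial ℚ) =>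
      MvPolynomial.aeval (fun v : Σ i, Fin (2 * m i) × Fin (2 * m i) => P v.1 v.2.1 v.2.2) q) (map_zero _) Xm
    have h3 := congrFun (congrFun h2 (ix _ a).1) (ix _ a).2
    rw [Matrix.map_apply] at h3
    rw [h3]
    refine congrArg (fun z : ∀ i, Matrix (Fin (2 * m i)) (Fin (2 * m i)) ℚ⟦X⟧ => bd z _ _) (funext fun i => ?_)
    ext1 a b
    rw [Matrix.map_apply, hXa, map_sum]
    unfold Hn
    rw [Matrix.mul_apply]
    refine Finset.sum_congr rfl fun k _ => ?_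
    rw [map_mul, MvPolynomial.aeval_C, MvPolynomial.aeval_X, cM_apply, PowerSeries.algebraMap_apply']
    congr 1
    rw [Polynomial.coe_C]
    exact PowerSeries.map_C _ _
  have h2 := hmax _ h1 z (fun i => cq (P0 (P i)) * γ i) (fun i => cqP0_form h i (hγ i))
  rw [← MvPolynomial.coe_eval₂Hom, MvPolynomial.eval₂Hom_bind₁] at h2
  rw [← MvPolynomial.coe_eval₂Hom, ← h2]
  refine congrArg (fun z => MvPolynomial.eval₂Hom _ z R) (funext fun a => ?_)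
  rw [hsub]
  simp only
  have h4 := bd_map (fun q => MvPolynomial.eval₂Hom (Polynomial.aeval z : Polynomial ℚ →ₐ[ℚ] ℂ).toRingHom
    (fun v : Σ i, Fin (2 * m i) × Fin (2 * m i) => (cq (P0 (P v.1)) * γ v.1) v.2.1 v.2.2) q)
    (map_zero _) Xm
  have h5 := congrFun (congrFun h4 (ix _ a).1) (ix _ a).2
  rw [Matrix.map_apply] at h5
  rw [h5]
  refine congrArg (fun z : ∀ i, Matrix (Fin (2 * m i)) (Fin (2 * m i)) ℂ => bd z _ _) (funext fun i => ?_)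
  have h6 : γ i = cq (P0i (P i)) * (cq (P0 (P i)) * γ i) := by
    rw [← Matrix.mul_assoc, ← cq_mul, P0i_mul (h i), cq_one', Matrix.one_mul]
  ext a b
  rw [Matrix.map_apply, hXa, map_sum]
  nth_rewrite 1 [h6]
  rw [Matrix.mul_apply]
  refine Finset.sum_congr rfl fun k _ => ?_
  rw [map_mul, MvPolynomial.eval₂Hom_C, MvPolynomial.eval₂Hom_X', cq_apply]
  congr 1
  show _ = Polynomial.aeval z (Polynomial.C (P0i (P i) a k))
  rw [Polynomial.aeval_C]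
  rfl

/-- the values of the normalised matrices -/
lemma val_Hn (h : ∀ i, FV (e i) (P i)) : ∃ b : ℕ, ∀ α : ℂ, (b : ℝ) < ‖α‖ →
    (∀ i a c, Cvc (1 / α) (P i a c)) ∧
    (∀ i, Mv (P i) (1 / α) = cq (P0 (P i)) * Mv (Hn (P i)) (1 / α)) ∧
    (∀ i, (Mv (Hn (P i)) (1 / α))ᵀ * Pool.Agent.Y113.MT.SS ℂ (2 * m i) * Mv (Hn (P i)) (1 / α) =
      Pool.Agent.Y113.MT.SS ℂ (2 * m i)) := by
  obtain ⟨b1, hb1⟩ := cvc_all (f := fun v : Σ i, Fin (2 * m i) × Fin (2 * m i) => P v.1 v.2.1 v.2.2)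
    (fun v => (h v.1).gfun _ _)
  refine ⟨b1, fun α hα => ?_⟩
  have hP : ∀ i a c, Cvc (1 / α) (P i a c) := fun i a c => hb1 α hα ⟨i, (a, c)⟩
  have hH : ∀ i a c, Cvc (1 / α) (Hn (P i) a c) := fun i a c => Cvc_mul (Cvc_cM _ _) (hP i) a c
  refine ⟨hP, fun i => ?_, fun i => ?_⟩
  · nth_rewrite 1 [← cM_P0_Hn (h i)]
    rw [Mv_mul (Cvc_cM _ _) (hH i), Mv_cM]
  · have h1 : Mv ((Hn (P i))ᵀ * cM (Pool.Agent.Y113.MT.SS ℚ (2 * m i)) * Hn (P i)) (1 / α) =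
        Mv (cM (Pool.Agent.Y113.MT.SS ℚ (2 * m i))) (1 / α) := congrArg (fun Z => Mv Z (1 / α)) (Hn_form (h i))
    have hT : ∀ a c, Cvc (1 / α) ((Hn (P i))ᵀ a c) := fun a c => hH i c a
    rw [Mv_mul (Cvc_mul hT (Cvc_cM _ _)) (hH i), Mv_mul hT (Cvc_cM _ _), Mv_cM, Mv_tr, cq_SS] at h1
    exact h1

lemma deg_bind {σ τ R : Type} [CommRing R] (f : σ → MvPolynomial τ R) (hf : ∀ s, (f s).totalDegree ≤ 1)
    (Q : MvPolynomial σ R) : (MvPolynomial.bind₁ f Q).totalDegree ≤ Q.totalDegree := by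
  nth_rewrite 1 [Q.as_sum]
  rw [map_sum]
  refine (MvPolynomial.totalDegree_finsetSum _ _).trans (Finset.sup_le fun s hs => ?_)
  rw [MvPolynomial.bind₁_monomial]
  refine (MvPolynomial.totalDegree_mul _ _).trans ?_
  rw [MvPolynomial.totalDegree_C, zero_add]
  refine (MvPolynomial.totalDegree_finsetProd _ _).trans ?_
  refine le_trans (Finset.sum_le_sum fun i _ => (MvPolynomial.totalDegree_pow _ _).trans
    (Nat.mul_le_mul_left _ (hf i))) ?_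
  simp only [mul_one]
  exact MvPolynomial.le_totalDegree hs

/-- **All relations of bounded degree between the fibres of the families at the points `1 / (ξ - G u_j)`, `ξ` algebraic of
bounded degree and polynomially bounded height, hold on the product of the symplectic groups.** -/
theorem fam_gen (h : ∀ i, FV (e i) (P i)) (hmax : Max P) :
    ∃ G0 : ℕ, 1 ≤ G0 ∧ ∃ b₀ : ℕ, (∀ α : ℂ, (b₀ : ℝ) < ‖α‖ →
      (∀ i a c, Cvc (1 / α) (P i a c)) ∧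
      ∀ i, (Mv (P i) (1 / α))ᵀ * Pool.Agent.Y113.MT.SS ℂ (2 * m i) * Mv (P i) (1 / α) = Pool.Agent.Y113.MT.SS ℂ (2 * m i)) ∧
    ∀ g : ℕ, G0 ≤ g → ∀ k m' a d : ℕ, ∃ Ex : ℕ, ∀ (B : ℕ) (ξ : ℂ),
    ((B : ℝ) + 2) ^ Ex ≤ ‖ξ‖ → Ht m' a ξ → (g * B : ℝ) + b₀ < ‖ξ‖ ∧
    ∀ u : Fin k → ℕ, Function.Injective u → (∀ j, 1 ≤ u j ∧ u j ≤ B) →
    ∀ Q : MvPolynomial (Vs m k) ℚ, Q.totalDegree ≤ d →
    MvPolynomial.aeval (fun x : Vs m k => Mv (P x.2.1) (1 / (ξ - ((g * u x.1 : ℕ) : ℂ))) x.2.2.1 x.2.2.2) Q = 0 →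
    ∀ γ : Fin k → ∀ i, Matrix (Fin (2 * m i)) (Fin (2 * m i)) ℂ,
      (∀ j i, (γ j i)ᵀ * Pool.Agent.Y113.MT.SS ℂ (2 * m i) * γ j i = Pool.Agent.Y113.MT.SS ℂ (2 * m i)) →
    MvPolynomial.aeval (fun x : Vs m k => γ x.1 x.2.1 x.2.2.1 x.2.2.2) Q = 0 := by
  classical
  choose T A hUS using fun i => us_norm (h i)
  have hUS' : ∀ i, US (NNZ (m i) (e i)) (Hn (P i)) (-(cM (Pool.Agent.Y113.MT.SS ℚ (2 * m i)) * (Hn (P i))ᵀ *
      cM (Pool.Agent.Y113.MT.SS ℚ (2 * m i)))) (∏ j, T j) (fun a b => (∏ j ∈ Finset.univ.erase i, T j) * A i a b) := by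
    intro i
    have h1 := US_mulT (hUS i) (S := ∏ j ∈ Finset.univ.erase i, T j)
      (Finset.prod_ne_zero_iff.2 fun j _ => (hUS j).T0)
    have h2 : (∏ j ∈ Finset.univ.erase i, T j) * T i = ∏ j, T j := by
      rw [mul_comm, Finset.mul_prod_erase Finset.univ _ (Finset.mem_univ i)]
    rw [h2] at h1
    exact h1
  have hbd := us_bd hUS' (Finset.prod_ne_zero_iff.2 fun j _ => (hUS j).T0)
  obtain ⟨b₀, hb₀⟩ := val_Hn h
  have hMvbd : ∀ z : ℂ, Mv (bd fun i => Hn (P i)) z = bd fun i => Mv (Hn (P i)) z := by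
    intro z
    exact bd_map (evc z) Pool.Agent.Y916.Al.ev_zero _
  obtain ⟨G0, hG0, h1⟩ := sys_gen hbd (pg_GSp m) (fun R hR z g hg => rel_bd h hmax R hR z hg) (b₀ := b₀) (fun α hα => by
    rw [hMvbd]
    exact mem_GSp (hb₀ α hα).2.2)
  refine ⟨G0, hG0, b₀, fun α hα => ⟨(hb₀ α hα).1, fun i => ?_⟩, fun g hg k m' a d => ?_⟩
  · rw [(hb₀ α hα).2.1 i]
    exact cqP0_form h i ((hb₀ α hα).2.2 i)
  obtain ⟨Ex, h2⟩ := h1 g hg k m' a 1 d
  refine ⟨Ex, fun B ξ hξ hHt => ⟨(h2 B ξ hξ hHt).1, fun u hu hub Q hQd hQ0 γ hγ => ?_⟩⟩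
  have hz : ∀ j, (b₀ : ℝ) < ‖ξ - ((g * u j : ℕ) : ℂ)‖ := by
    intro j
    have h3 := norm_sub_norm_le ξ ((g * u j : ℕ) : ℂ)
    rw [Complex.norm_natCast] at h3
    have h4 : ((g * u j : ℕ) : ℝ) ≤ g * B := by
      push_cast
      exact mul_le_mul_of_nonneg_left (by exact_mod_cast (hub j).2) (Nat.cast_nonneg g)
    have h5 := (h2 B ξ hξ hHt).1
    linarith
  set Y := fun x : Vs m k => ∑ c, (MvPolynomial.C (P0 (P x.2.1) x.2.2.1 c) : MvPolynomial (Fin k × (Fin (∑ i, 2 * m i) ×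
    Fin (∑ i, 2 * m i))) ℚ) * MvPolynomial.X (x.1, (finSigmaFinEquiv ⟨x.2.1, c⟩, finSigmaFinEquiv ⟨x.2.1, x.2.2.2⟩)) with hY
  have hYd : ∀ x, (Y x).totalDegree ≤ 1 := by
    intro x
    rw [hY]
    refine (MvPolynomial.totalDegree_finsetSum _ _).trans (Finset.sup_le fun c _ => ?_)
    refine (MvPolynomial.totalDegree_mul _ _).trans ?_
    rw [MvPolynomial.totalDegree_C, zero_add]
    exact (MvPolynomial.totalDegree_X _).le
  have hev : ∀ Z : Fin k → ∀ i, Matrix (Fin (2 * m i)) (Fin (2 * m i)) ℂ,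
      MvPolynomial.aeval (fun x : Fin k × (Fin (∑ i, 2 * m i) × Fin (∑ i, 2 * m i)) => bd (Z x.1) x.2.1 x.2.2)
        (MvPolynomial.bind₁ Y Q) =
      MvPolynomial.aeval (fun x : Vs m k => (cq (P0 (P x.2.1)) * Z x.1 x.2.1) x.2.2.1 x.2.2.2) Q := by
    intro Z
    rw [MvPolynomial.aeval_bind₁]
    refine congrArg (fun z => MvPolynomial.aeval z Q) (funext fun x => ?_)
    rw [hY]
    simp only
    rw [map_sum, Matrix.mul_apply]
    refine Finset.sum_congr rfl fun c _ => ?_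
    rw [map_mul, MvPolynomial.aeval_C, MvPolynomial.aeval_X, bd_same, cq_apply]
    rfl
  have h3 := (h2 B ξ hξ hHt).2 u hu hub ⊥ inferInstance (by rw [IntermediateField.finrank_bot])
    (MvPolynomial.map (algebraMap ℚ (⊥ : IntermediateField ℚ ℂ)) (MvPolynomial.bind₁ Y Q))
    ((Finset.sup_mono (MvPolynomial.support_map_subset _ _)).trans ((deg_bind Y hYd Q).trans hQd)) (by
      rw [MvPolynomial.aeval_map_algebraMap]
      simp only [hMvbd]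
      rw [hev fun j i => Mv (Hn (P i)) (1 / (ξ - ((g * u j : ℕ) : ℂ))), ← hQ0]
      refine congrArg (fun z => MvPolynomial.aeval z Q) (funext fun x => ?_)
      rw [(hb₀ _ (hz x.1)).2.1 x.2.1]) (fun j => bd fun i => cq (P0i (P i)) * γ j i)
    (fun j => mem_GSp fun i => cqP0i_form h i (hγ j i))
  rw [MvPolynomial.aeval_map_algebraMap, hev fun j i => cq (P0i (P i)) * γ j i] at h3
  rw [← h3]
  refine congrArg (fun z => MvPolynomial.aeval z Q) (funext fun x => ?_)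
  rw [← Matrix.mul_assoc, ← cq_mul, mul_P0i (h x.2.1), cq_one', Matrix.one_mul]

end

end Pool.Agent.W2helper4.CY
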