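import Pool.Agent.W2helper4.CY.Fam

/-!
# Mumford–Tate Lie algebras of sums of fibres of general families of Calabi–Yau type
-/

set_option autoImplicit false
set_option maxHeartbeats 1000000

open Matrix PowerSeries Pool.Agent.Y113.MT

namespace Pool.Agent.W2helper4.CY

open Pool.Agent.W2helper4.MJ
open Pool.Agent.Y916.Al (Ht evc Cvc)

variable {r : ℕ} {m : Fin r → ℕ}

/-- all relations of degree at most `N` between the values at the points `z_j` hold on the product of the symplectic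
groups -/
def GenQ (P : ∀ i, Matrix (Fin (2 * m i)) (Fin (2 * m i)) ℚ⟦X⟧) (N : ℕ) {k : ℕ} (z : Fin k → ℂ) : Prop :=
  ∀ Q : MvPolynomial (Vs m k) ℚ, Q.totalDegree ≤ N →
    MvPolynomial.aeval (fun x : Vs m k => Mv (P x.2.1) (z x.1) x.2.2.1 x.2.2.2) Q = 0 →
    ∀ γ : Fin k → ∀ i, Matrix (Fin (2 * m i)) (Fin (2 * m i)) ℂ,
      (∀ j i, (γ j i)ᵀ * SS ℂ (2 * m i) * γ j i = SS ℂ (2 * m i)) →
    MvPolynomial.aeval (fun x : Vs m k => γ x.1 x.2.1 x.2.2.1 x.2.2.2) Q = 0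

variable {P : ∀ i, Matrix (Fin (2 * m i)) (Fin (2 * m i)) ℚ⟦X⟧}

lemma GenQ.ren {N k : ℕ} {z : Fin k → ℂ} (h : GenQ P N z) {ι : Type} (f : ι → Vs m k) (Q : MvPolynomial ι ℚ)
    (hQ : Q.totalDegree ≤ N)
    (h0 : MvPolynomial.aeval (fun x => Mv (P (f x).2.1) (z (f x).1) (f x).2.2.1 (f x).2.2.2) Q = 0)
    (γ : Fin k → ∀ i, Matrix (Fin (2 * m i)) (Fin (2 * m i)) ℂ)
    (hγ : ∀ j i, (γ j i)ᵀ * SS ℂ (2 * m i) * γ j i = SS ℂ (2 * m i)) :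
    MvPolynomial.aeval (fun x => γ (f x).1 (f x).2.1 (f x).2.2.1 (f x).2.2.2) Q = 0 := by
  have h1 := h (MvPolynomial.rename f Q) ((MvPolynomial.totalDegree_rename_le _ _).trans hQ) (by
      rw [MvPolynomial.aeval_rename]
      exact h0) γ hγ
  rw [MvPolynomial.aeval_rename] at h1
  exact h1

lemma oK_ok' {k : ℕ} (x : Fin k × Fin r) : (oK m k x)ᵀ * SS ℂ (2 * m x.2) * oK m k x = SS ℂ (2 * m x.2) := by
  unfold oK
  rw [transpose_one, Matrix.one_mul, Matrix.mul_one]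

lemma updK_ok' {k : ℕ} {x0 : Fin k × Fin r} {h : Matrix (Fin (2 * m x0.2)) (Fin (2 * m x0.2)) ℂ}
    (hh : hᵀ * SS ℂ (2 * m x0.2) * h = SS ℂ (2 * m x0.2))
    {f : ∀ x : Fin k × Fin r, Matrix (Fin (2 * m x.2)) (Fin (2 * m x.2)) ℂ}
    (hf : ∀ x, (f x)ᵀ * SS ℂ (2 * m x.2) * f x = SS ℂ (2 * m x.2)) (x : Fin k × Fin r) :
    (Function.update f x0 h x)ᵀ * SS ℂ (2 * m x.2) * Function.update f x0 h x = SS ℂ (2 * m x.2) := by
  by_cases hx : x = x0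
  · subst hx
    rw [Function.update_self]
    exact hh
  · rw [Function.update_of_ne hx]
    exact hf x

/-- one block -/
lemma GenQ.single {N k : ℕ} {z : Fin k → ℂ} (h : GenQ P N z) (x0 : Fin k × Fin r) :
    GenS N (SS ℚ (2 * m x0.2)) (Mv (P x0.2) (z x0.1)) := by
  intro Q hQ h0 g hg
  rw [cq_SS] at hg
  have h1 := h.ren (fun x : Fin (2 * m x0.2) × Fin (2 * m x0.2) => (x0.1, (⟨x0.2, x⟩ : Σ i, Fin (2 * m i) × Fin (2 * m i))))
    Q hQ h0 (fun j i => Function.update (oK m k) x0 g (j, i)) (fun j i => updK_ok' hg oK_ok' (j, i))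
  rw [← h1]
  refine congrArg (fun z => MvPolynomial.aeval z Q) (funext fun x => ?_)
  show g x.1 x.2 = Function.update (oK m k) x0 g x0 x.1 x.2
  rw [Function.update_self]

/-- two blocks -/
lemma GenQ.pair {N k : ℕ} {z : Fin k → ℂ} (h : GenQ P N z) {x0 x1 : Fin k × Fin r} (hx : x0 ≠ x1) :
    GenP N (SS ℚ (2 * m x0.2)) (SS ℚ (2 * m x1.2)) (Mv (P x0.2) (z x0.1)) (Mv (P x1.2) (z x1.1)) := by
  intro Q hQ h0 g' g hg' hg
  rw [cq_SS] at hg hg'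
  have h1 := h.ren (Sum.elim
    (fun x : Fin (2 * m x1.2) × Fin (2 * m x1.2) => (x1.1, (⟨x1.2, x⟩ : Σ i, Fin (2 * m i) × Fin (2 * m i))))
    (fun x : Fin (2 * m x0.2) × Fin (2 * m x0.2) => (x0.1, (⟨x0.2, x⟩ : Σ i, Fin (2 * m i) × Fin (2 * m i)))))
    Q hQ (by
      rw [← h0]
      refine congrArg (fun z => MvPolynomial.aeval z Q) (funext fun x => ?_)
      rcases x with x | x <;> rfl)
    (fun j i => Function.update (Function.update (oK m k) x0 g) x1 g' (j, i))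
    (fun j i => updK_ok' hg' (updK_ok' hg oK_ok') (j, i))
  rw [← h1]
  refine congrArg (fun z => MvPolynomial.aeval z Q) (funext fun x => ?_)
  rcases x with x | x
  · show g' x.1 x.2 = Function.update (Function.update (oK m k) x0 g) x1 g' x1 x.1 x.2
    rw [Function.update_self]
  · show g x.1 x.2 = Function.update (Function.update (oK m k) x0 g) x1 g' x0 x.1 x.2
    rw [Function.update_of_ne hx, Function.update_self]

/-- **The Hodge structures at neighbouring algebraic points of several families are jointly Hodge generic.** -/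
theorem mt_cy (hm : ∀ i, 4 ≤ m i) {e : Fin r → ℕ} (h : ∀ i, FV (e i) (P i)) (hmax : Max P) :
    ∃ G0 : ℕ, 1 ≤ G0 ∧ ∃ b₀ : ℕ, (∀ α : ℂ, (b₀ : ℝ) < ‖α‖ → ∀ i a c, Cvc (1 / α) (P i a c)) ∧
    ∀ g : ℕ, G0 ≤ g → ∀ g₀ A₀ : ℕ, ∃ Ex : ℕ, ∀ (b : ℕ) (ξ : ℂ), ((b : ℝ) + 2) ^ Ex ≤ ‖ξ‖ → Ht g₀ A₀ ξ →
    (g * b : ℝ) + b₀ < ‖ξ‖ ∧
    ∀ (s : ℕ) (c : Fin s → Fin r) (u : Fin s → ℕ), (∀ a, 1 ≤ u a ∧ u a ≤ b) → (∀ a a', a ≠ a' → c a = c a' → u a ≠ u a') →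
    ∀ (C : ∀ a, Matrix (Fin (2 * m (c a))) (Fin (2 * m (c a))) ℂ)
      (M A : ∀ a, Matrix (Fin (2 * m (c a))) (Fin (2 * m (c a))) ℚ) (q κ : Fin s → ℂ), (∀ a, (C a).det ≠ 0) →
    (∀ a, q a ≠ 0) → (∀ a, C a * cq (M a) = q a • (NN ℂ (2 * m (c a)) * C a)) → (∀ a, κ a ≠ 0) →
    (∀ a, C a * cq (A a) * (C a)ᵀ = κ a • SS ℂ (2 * m (c a))) →
    ∀ (Fil H : ∀ a, ℕ → Submodule ℂ (Fin (2 * m (c a)) → ℂ)),
    (∀ a i, m (c a) ≤ i → Fil a i = Submodule.span ℂ {v | ∃ b : Fin (2 * m (c a)), (b : ℕ) + i < 2 * m (c a) ∧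
      v = Mv (P (c a)) (1 / (ξ - ((g * u a : ℕ) : ℂ))) b ᵥ* C a}) →
    (∀ a, Polarised (Fil a) (A a) (H a)) →
    ∀ V : Submodule ℚ (∀ a, Matrix (Fin (2 * m (c a))) (Fin (2 * m (c a))) ℚ),
    (∀ X ∈ V, ∀ Y ∈ V, (fun a => X a * Y a - Y a * X a) ∈ V) →
    (∀ Φ : ∀ a, Matrix (Fin (2 * m (c a))) (Fin (2 * m (c a))) ℂ,
      (∀ a, ∀ p < 2 * m (c a), ∀ v ∈ H a p, v ᵥ* Φ a = (p : ℂ) • v) →
      Φ ∈ Submodule.span ℂ (tq '' (V : Set (∀ a, Matrix (Fin (2 * m (c a))) (Fin (2 * m (c a))) ℚ)))) →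
    ∀ X : ∀ a, Matrix (Fin (2 * m (c a))) (Fin (2 * m (c a))) ℚ, (∀ a, X a * A a + A a * (X a)ᵀ = 0) → X ∈ V := by
  classical
  obtain ⟨N, hN⟩ := mt_gen hm
  obtain ⟨G0, hG0, b₀, hb₀, hfam⟩ := fam_gen h hmax
  refine ⟨G0, hG0, b₀, fun α hα => (hb₀ α hα).1, fun g hg g₀ A₀ => ?_⟩
  obtain ⟨Ex1, hE1⟩ := hfam g hg 1 g₀ A₀ N
  obtain ⟨Ex2, hE2⟩ := hfam g hg 2 g₀ A₀ N
  refine ⟨Ex1 + Ex2, fun b ξ hξ hHt => ?_⟩
  have hB1 : (1 : ℝ) ≤ (b : ℝ) + 2 := by linarith [(Nat.cast_nonneg b : (0 : ℝ) ≤ b)]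
  obtain ⟨hgb, hF1⟩ := hE1 b ξ ((pow_le_pow_right₀ hB1 (by omega)).trans hξ) hHt
  obtain ⟨-, hF2⟩ := hE2 b ξ ((pow_le_pow_right₀ hB1 (by omega)).trans hξ) hHt
  refine ⟨hgb, fun s c u hub huc C M A q κ hC hq hM hκ hA Fil H hFil hH V hV hΦ X hX => ?_⟩
  have hz : ∀ a, (b₀ : ℝ) < ‖ξ - ((g * u a : ℕ) : ℂ)‖ := by
    intro a
    have h1 := norm_sub_norm_le ξ ((g * u a : ℕ) : ℂ)
    rw [Complex.norm_natCast] at h1
    have h2 : ((g * u a : ℕ) : ℝ) ≤ g * b := by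
      push_cast
      exact mul_le_mul_of_nonneg_left (by exact_mod_cast (hub a).2) (Nat.cast_nonneg g)
    linarith
  have h1Q : ∀ a, GenQ P N (fun _ : Fin 1 => 1 / (ξ - ((g * u a : ℕ) : ℂ))) := fun a Q hQ h0 γ hγ =>
    hF1 (fun _ => u a) (fun i j _ => Subsingleton.elim i j) (fun _ => hub a) Q hQ h0 γ hγ
  refine hN s c (fun a => Mv (P (c a)) (1 / (ξ - ((g * u a : ℕ) : ℂ)))) (fun a => (hb₀ _ (hz a)).2 (c a)) (fun a => ?_)
    (fun a a' haa => ?_) C M A q κ hC hq hM hκ hA Fil H hFil hH V hV hΦ X hX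
  · exact (h1Q a).single (0, c a)
  · by_cases hu : u a = u a'
    · have hcc : c a ≠ c a' := fun h => huc a a' haa h hu
      have h2 := (h1Q a).pair (x0 := (0, c a)) (x1 := (0, c a')) (fun h => hcc (congrArg Prod.snd h))
      rw [← hu]
      exact h2
    · have h2Q : GenQ P N (fun j : Fin 2 => 1 / (ξ - ((g * (![u a, u a'] : Fin 2 → ℕ) j : ℕ) : ℂ))) := by
        intro Q hQ h0 γ hγ
        refine hF2 ![u a, u a'] ?_ ?_ Q hQ h0 γ hγ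
        · intro i j hij
          fin_cases i <;> fin_cases j
          · rfl
          · exact absurd hij hu
          · exact absurd hij.symm hu
          · rfl
        · intro j
          fin_cases j
          · exact hub a
          · exact hub a'
      exact h2Q.pair (x0 := (0, c a)) (x1 := (1, c a')) (fun h => by simpa using congrArg Prod.fst h)

end Pool.Agent.W2helper4.CY
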