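import Pool.Agent.W2helper4.CY.Main
import Pool.Agent.Y119.HA.Fin
import Pool.Agent.Y119.HA.Nor

/-!
# Conversions for the natural statement, and windows with the point itself
-/

set_option autoImplicit false
set_option maxHeartbeats 1000000

open Matrix PowerSeries Pool.Agent.Y113 Pool.Agent.Y113.MT

namespace Pool.Agent.W2helper4.CY

open Pool.Agent.W2helper4.MJ Pool.Agent.W2helper4.HJ
open Pool.Agent.Y916.Al (Ht evc Cvc)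

lemma sdc_of_bound {f : ℚ⟦X⟧} {K : ℕ} (h : ∀ k, |((coeff k f : ℚ) : ℝ)| ≤ (K : ℝ) ^ (k + 1) ∧
    ∃ d : ℕ, 0 < d ∧ (d : ℝ) ≤ (K : ℝ) ^ (k + 1) ∧ ∀ j ≤ k, ∃ a : ℤ, (d : ℚ) * coeff j f = a) : SDc f := by
  have hK : (K : ℝ) ≤ 2 ^ K := by exact_mod_cast (Nat.lt_two_pow_self (n := K)).le
  have hK2 : ∀ k : ℕ, (K : ℝ) ^ (k + 1) ≤ (2 ^ K) ^ (k + 1) := fun k => pow_le_pow_left₀ (by positivity) hK _
  refine ⟨K, fun k => (h k).1.trans (hK2 k), fun k => ?_⟩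
  obtain ⟨d, hd, hdK, hj⟩ := (h k).2
  exact ⟨d, hd, hdK.trans (hK2 k), hj⟩

lemma clear_one (p : Polynomial ℚ) : ∃ (D : ℤ) (q : Polynomial ℤ), D ≠ 0 ∧
    q.map (Int.castRingHom ℚ) = Polynomial.C (D : ℚ) * p := by
  obtain ⟨b, hb, h⟩ := IsLocalization.integerNormalization_spec (nonZeroDivisors ℤ) p
  refine ⟨b, _, nonZeroDivisors.ne_zero hb, h.trans ?_⟩
  ext i
  rw [Polynomial.coeff_smul, Polynomial.coeff_C_mul, zsmul_eq_mul]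

lemma clear_fin {ι : Type} [Fintype ι] [DecidableEq ι] (p : ι → Polynomial ℚ) : ∃ (D : ℤ) (q : ι → Polynomial ℤ), D ≠ 0 ∧
    ∀ i, (q i).map (Int.castRingHom ℚ) = Polynomial.C (D : ℚ) * p i := by
  choose D q hD hq using fun i => clear_one (p i)
  refine ⟨∏ i, D i, fun i => Polynomial.C (∏ j ∈ Finset.univ.erase i, D j) * q i,
    Finset.prod_ne_zero_iff.2 fun i _ => hD i, fun i => ?_⟩
  rw [Polynomial.map_mul, hq, Polynomial.map_C, ← mul_assoc, ← Polynomial.C_mul]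
  congr 2
  rw [← Finset.mul_prod_erase Finset.univ D (Finset.mem_univ i)]
  simp only [eq_intCast, Int.cast_mul]
  ring

lemma form_flip {R : Type*} [CommRing R] {n : ℕ} {S P : Matrix (Fin n) (Fin n) R} (hS : S * S = -1)
    (h : P * S * Pᵀ = S) : Pᵀ * S * P = S := by
  have h1 : P * (-(S * Pᵀ * S)) = 1 := by
    rw [Matrix.mul_neg, ← Matrix.mul_assoc, ← Matrix.mul_assoc, h, hS, neg_neg]
  have h2 : (-(S * Pᵀ * S)) * P = 1 := mul_eq_one_comm.1 h1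
  calc Pᵀ * S * P = -((S * S) * (Pᵀ * S * P)) := by rw [hS, Matrix.neg_mul, Matrix.one_mul, neg_neg]
    _ = S * (-(S * Pᵀ * S) * P) := by
        rw [Matrix.neg_mul, Matrix.mul_neg]
        simp only [Matrix.mul_assoc]
    _ = S := by rw [h2, Matrix.mul_one]

lemma form_flip' {R : Type*} [CommRing R] {n : ℕ} {S P : Matrix (Fin n) (Fin n) R} (hS : S * S = -1)
    (h : Pᵀ * S * P = S) : P * S * Pᵀ = S := by
  have h1 := form_flip (P := Pᵀ) hS (by rw [Matrix.transpose_transpose]; exact h)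
  rwa [Matrix.transpose_transpose] at h1

section ex
variable {m : ℕ}

lemma NN_skew (m : ℕ) : (NN ℂ (2 * m))ᵀ * SS ℂ (2 * m) + SS ℂ (2 * m) * NN ℂ (2 * m) = 0 := by
  have h1 := NN_SS m
  rw [cq_SS] at h1
  rw [h1, neg_add_cancel]

/-- the exponential of the logarithm of the monodromy -/
lemma E_sp (l : ℂ) : Pool.Agent.Y119.HY.E (NN ℂ (2 * m)) l * SS ℂ (2 * m) *
    (Pool.Agent.Y119.HY.E (NN ℂ (2 * m)) l)ᵀ = SS ℂ (2 * m) :=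
  form_flip' (SS_sq m) (Pool.Agent.Y119.HY.E_isom (NN_nil (2 * m)) (NN_skew m) l)

lemma E_comm {n : ℕ} (N : Matrix (Fin n) (Fin n) ℂ) (l : ℂ) :
    Pool.Agent.Y119.HY.E N l * N = N * Pool.Agent.Y119.HY.E N l := by
  unfold Pool.Agent.Y119.HY.E
  rw [Finset.sum_mul, Finset.mul_sum]
  refine Finset.sum_congr rfl fun i _ => ?_
  rw [smul_mul_assoc, mul_smul_comm, ← pow_succ, ← pow_succ']

lemma E_det {n : ℕ} {N : Matrix (Fin n) (Fin n) ℂ} (hN : N ^ n = 0) (l : ℂ) : (Pool.Agent.Y119.HY.E N l).det ≠ 0 := by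
  have h1 := Pool.Agent.Y119.HY.E_mul_neg hN l
  have h2 := congrArg Matrix.det h1
  rw [Matrix.det_mul, Matrix.det_one] at h2
  exact left_ne_zero_of_mul_eq_one h2

/-- rational structures twisted by the logarithm -/
lemma twist {C : Matrix (Fin (2 * m)) (Fin (2 * m)) ℂ} {M A : Matrix (Fin (2 * m)) (Fin (2 * m)) ℚ} {q κ : ℂ} (l : ℂ)
    (hC : C.det ≠ 0) (hM : C * cq M = q • (NN ℂ (2 * m) * C)) (hA : C * cq A * Cᵀ = κ • SS ℂ (2 * m)) :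
    (Pool.Agent.Y119.HY.E (NN ℂ (2 * m)) l * C).det ≠ 0 ∧
    (Pool.Agent.Y119.HY.E (NN ℂ (2 * m)) l * C) * cq M =
      q • (NN ℂ (2 * m) * (Pool.Agent.Y119.HY.E (NN ℂ (2 * m)) l * C)) ∧
    (Pool.Agent.Y119.HY.E (NN ℂ (2 * m)) l * C) * cq A * (Pool.Agent.Y119.HY.E (NN ℂ (2 * m)) l * C)ᵀ =
      κ • SS ℂ (2 * m) := by
  set U := Pool.Agent.Y119.HY.E (NN ℂ (2 * m)) l with hU
  refine ⟨?_, ?_, ?_⟩
  · rw [Matrix.det_mul]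
    exact mul_ne_zero (E_det (NN_nil _) l) hC
  · rw [Matrix.mul_assoc, hM, Matrix.mul_smul, ← Matrix.mul_assoc, E_comm, Matrix.mul_assoc]
  · calc (U * C) * cq A * (U * C)ᵀ = U * (C * cq A * Cᵀ) * Uᵀ := by
          rw [Matrix.transpose_mul]
          simp only [Matrix.mul_assoc]
      _ = κ • SS ℂ (2 * m) := by rw [hA, Matrix.mul_smul, Matrix.smul_mul, hU, E_sp]

end ex

section win
variable {r : ℕ} {m : Fin r → ℕ} {P : ∀ i, Matrix (Fin (2 * m i)) (Fin (2 * m i)) ℚ⟦X⟧}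

/-- **The Hodge structures at neighbouring algebraic points of several families are jointly Hodge generic**, with the
index zero. -/
theorem mt_cy0 (hm : ∀ i, 4 ≤ m i) {e : Fin r → ℕ} (h : ∀ i, FV (e i) (P i)) (hmax : Max P) :
    ∃ G0 : ℕ, 1 ≤ G0 ∧ ∃ b₀ : ℕ, (∀ α : ℂ, (b₀ : ℝ) < ‖α‖ → ∀ i a c, Cvc (1 / α) (P i a c)) ∧
    ∀ g : ℕ, G0 ≤ g → ∀ g₀ A₀ : ℕ, ∃ Ex : ℕ, ∀ (b : ℕ) (ξ : ℂ), ((b : ℝ) + 2) ^ Ex ≤ ‖ξ‖ → Ht g₀ A₀ ξ →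
    (g * b : ℝ) + b₀ + 1 < ‖ξ‖ ∧
    ∀ (s : ℕ) (c : Fin s → Fin r) (u : Fin s → ℕ), (∀ a, u a ≤ b) → (∀ a a', a ≠ a' → c a = c a' → u a ≠ u a') →
    ∀ (C : ∀ a, Matrix (Fin (2 * m (c a))) (Fin (2 * m (c a))) ℂ)
      (M A : ∀ a, Matrix (Fin (2 * m (c a))) (Fin (2 * m (c a))) ℚ) (q κ : Fin s → ℂ), (∀ a, (C a).det ≠ 0) →
    (∀ a, q a ≠ 0) → (∀ a, C a * cq (M a) = q a • (NN ℂ (2 * m (c a)) * C a)) → (∀ a, κ a ≠ 0) →
    (∀ a, C a * cq (A a) * (C a)ᵀ = κ a • SS ℂ (2 * m (c a))) →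
    ∀ (Fil H : ∀ a, ℕ → Submodule ℂ (Fin (2 * m (c a)) → ℂ)),
    (∀ a i, m (c a) ≤ i → Fil a i = Submodule.span ℂ {v | ∃ b : Fin (2 * m (c a)), (b : ℕ) + i < 2 * m (c a) ∧
      v = Mv (P (c a)) (1 / (ξ - ((g * u a : ℕ) : ℂ))) b ᵥ* C a}) →
    (∀ a, Polarised (Fil a) (A a) (H a)) →
    ∀ V : Submodule ℚ (∀ a, Matrix (Fin (2 * m (c a))) (Fin (2 * m (c a))) ℚ),
    (∀ X ∈ V, ∀ Y ∈ V, (fun a => X a * Y a - Y a * X a) ∈ V) →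
    (∀ Φ : ∀ a, Matrix (Fin (2 * m (c a))) (Fin (2 * m (c a))) ℂ,
      (∀ a, ∀ p < 2 * m (c a), ∀ v ∈ H a p, v ᵥ* Φ a = (p : ℂ) • v) →
      Φ ∈ Submodule.span ℂ (tq '' (V : Set (∀ a, Matrix (Fin (2 * m (c a))) (Fin (2 * m (c a))) ℚ)))) →
    ∀ X : ∀ a, Matrix (Fin (2 * m (c a))) (Fin (2 * m (c a))) ℚ, (∀ a, X a * A a + A a * (X a)ᵀ = 0) → X ∈ V := by
  obtain ⟨G0, hG0, b₀, hb₀, hmain⟩ := mt_cy hm h hmax
  refine ⟨G0, hG0, b₀, hb₀, fun g hg g₀ A₀ => ?_⟩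
  obtain ⟨Ex, hE⟩ := hmain g hg g₀ (A₀ + 1)
  obtain ⟨B, hB⟩ := Pool.Agent.Y119.HA.ht_add g₀ A₀ g
  obtain ⟨N₁, hN₁⟩ := exists_nat_ge B
  refine ⟨2 * Ex + N₁ + g + b₀ + 2, fun b ξ hξ hHt => ?_⟩
  have hb0 : (0 : ℝ) ≤ b := Nat.cast_nonneg b
  have hB1 : (1 : ℝ) ≤ (b : ℝ) + 2 := by linarith
  have hB2 : (2 : ℝ) ≤ (b : ℝ) + 2 := by linarith
  have hg0 : (0 : ℝ) ≤ g := Nat.cast_nonneg g
  have hbb : (0 : ℝ) ≤ b₀ := Nat.cast_nonneg b₀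
  have hNN : (0 : ℝ) ≤ N₁ := Nat.cast_nonneg N₁
  -- powers
  have hp1 : (N₁ : ℝ) + g + b₀ + 1 ≤ ((b : ℝ) + 2) ^ (N₁ + g + b₀ + 1) := by
    refine le_trans ?_ (pow_le_pow_left₀ (by norm_num) hB2 _)
    exact_mod_cast (Nat.lt_two_pow_self (n := N₁ + g + b₀ + 1)).le
  have hp2 : (1 : ℝ) ≤ ((b : ℝ) + 2) ^ (2 * Ex) := one_le_pow₀ hB1
  have hsplit : ((b : ℝ) + 2) ^ (2 * Ex + N₁ + g + b₀ + 2) =
      ((b : ℝ) + 2) ^ (2 * Ex) * (((b : ℝ) + 2) ^ (N₁ + g + b₀ + 1) * ((b : ℝ) + 2)) := by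
    rw [← pow_succ, ← pow_add]
    congr 1
    omega
  have hX : ((N₁ : ℝ) + g + b₀ + 1) * ((b : ℝ) + 2) ≤ ((b : ℝ) + 2) ^ (N₁ + g + b₀ + 1) * ((b : ℝ) + 2) :=
    mul_le_mul_of_nonneg_right hp1 (by linarith)
  set Y := ((b : ℝ) + 2) ^ (N₁ + g + b₀ + 1) * ((b : ℝ) + 2) with hY
  set Z := ((b : ℝ) + 2) ^ (2 * Ex) with hZ
  have hY0 : (0 : ℝ) ≤ Y := by positivity
  have hZY : Z * Y ≤ ‖ξ‖ := by rw [← hsplit]; exact hξ
  have hYZ : Y ≤ Z * Y := by nlinarith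
  have hYξ : Y ≤ ‖ξ‖ := hYZ.trans hZY
  have hYbig : (N₁ : ℝ) + g * b + 2 * g + b₀ + 2 ≤ Y := by nlinarith [mul_nonneg hNN hb0, mul_nonneg hbb hb0]
  have hY2 : (2 : ℝ) ≤ Y := by nlinarith [mul_nonneg hg0 hb0]
  have hZg : Z + g ≤ Z * Y := by
    have h1 : (0 : ℝ) ≤ (Z - 1) * (Y - 1) := mul_nonneg (by linarith) (by linarith)
    nlinarith [mul_nonneg hg0 hb0]
  have hHt' := hB ξ (by
    have : (N₁ : ℝ) ≤ ‖ξ‖ := by nlinarith [mul_nonneg hg0 hb0]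
    linarith) hHt
  have hnorm : ‖ξ‖ - g ≤ ‖ξ + (g : ℂ)‖ := by
    have h1 := norm_sub_norm_le ξ (-(g : ℂ))
    rw [norm_neg, Complex.norm_natCast, sub_neg_eq_add] at h1
    exact h1
  have hbig : (((b + 1 : ℕ) : ℝ) + 2) ^ Ex ≤ ‖ξ + (g : ℂ)‖ := by
    have h1 : (((b + 1 : ℕ) : ℝ) + 2) ^ Ex ≤ Z := by
      rw [hZ, pow_mul]
      refine pow_le_pow_left₀ (by positivity) ?_ _
      push_cast
      nlinarith
    linarith
  obtain ⟨-, hmm⟩ := hE (b + 1) (ξ + g) hbig hHt'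
  refine ⟨by nlinarith, fun s c u hub huc => ?_⟩
  have h1 := hmm s c (fun a => u a + 1) (fun a => ⟨by omega, by have := hub a; omega⟩)
    (fun a a' haa hc hu => huc a a' haa hc (by omega))
  have h2 : ∀ a, (ξ + (g : ℂ)) - ((g * (u a + 1) : ℕ) : ℂ) = ξ - ((g * u a : ℕ) : ℂ) := by
    intro a
    push_cast
    ring
  simp only [h2] at h1
  exact h1

end win

end Pool.Agent.W2helper4.CY
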