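import Pool.Agent.W2helper4.MJ.Fib

/-!
# Relations between the fibres of a general system with unipotent monodromy, at algebraic points near the origin
-/

set_option autoImplicit false
set_option maxHeartbeats 4000000

open Matrix PowerSeries Pool.Agent.Y113 Pool.Agent.Y120.GF Pool.Agent.Y120.GH

namespace Pool.Agent.W2helper4.CY

open Pool.Agent.W2helper4.HJ Pool.Agent.W2helper4.MJ
open Pool.Agent.Y119.HZ (ix)
open Pool.Agent.Y916.Al (Ht evc)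

/-- the values of a matrix of power series -/
noncomputable def Mv {n : ℕ} (H : Matrix (Fin n) (Fin n) ℚ⟦X⟧) (z : ℂ) : Matrix (Fin n) (Fin n) ℂ :=
  Matrix.of fun i j => evc z (H i j)

section sys
variable {n : ℕ} {N : Matrix (Fin n) (Fin n) ℤ} {H W : Matrix (Fin n) (Fin n) ℚ⟦X⟧} {T : Polynomial ℤ}
    {A : Fin n → Fin n → Polynomial ℤ} {G : Submonoid (Matrix (Fin n) (Fin n) ℂ)}

/-- **All relations of bounded degree over number fields of bounded degree between the entries of the holomorphic part at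
the points `1 / (ξ - G u_j)`, `ξ` algebraic of bounded degree and polynomially bounded height, hold on the group, if this is
true for the functions.** -/
theorem sys_gen (h : US N H W T A) (hP : PG G)
    (hrel : ∀ R : MvPolynomial (Fin (n * n)) (Polynomial ℚ), MvPolynomial.aeval (HJ.hg H) R = 0 → ∀ z : ℂ, ∀ g ∈ G,
      MvPolynomial.eval₂ (Polynomial.aeval z : Polynomial ℚ →ₐ[ℚ] ℂ).toRingHom (fun i => g (ix n i).1 (ix n i).2) R = 0)
    {b₀ : ℕ} (hv : ∀ α : ℂ, (b₀ : ℝ) < ‖α‖ → Mv H (1 / α) ∈ G) :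
    ∃ G0 : ℕ, 1 ≤ G0 ∧ ∀ g : ℕ, G0 ≤ g → ∀ k m' a D d : ℕ, ∃ Ex : ℕ, ∀ (B : ℕ) (ξ : ℂ),
    ((B : ℝ) + 2) ^ Ex ≤ ‖ξ‖ → Ht m' a ξ → (g * B : ℝ) + b₀ < ‖ξ‖ ∧
    ∀ u : Fin k → ℕ, Function.Injective u → (∀ j, 1 ≤ u j ∧ u j ≤ B) →
    ∀ K : IntermediateField ℚ ℂ, FiniteDimensional ℚ K → Module.finrank ℚ K ≤ D →
    ∀ P : MvPolynomial (Fin k × (Fin n × Fin n)) K, P.totalDegree ≤ d →
    MvPolynomial.aeval (fun x => Mv H (1 / (ξ - ((g * u x.1 : ℕ) : ℂ))) x.2.1 x.2.2) P = 0 →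
    ∀ γ : Fin k → Matrix (Fin n) (Fin n) ℂ, (∀ j, γ j ∈ G) →
    MvPolynomial.aeval (fun x => γ x.1 x.2.1 x.2.2) P = 0 := by
  classical
  obtain ⟨G0, hG0, hwin⟩ := Pool.Agent.Y916.Af.winNs (Pool.Agent.Y916.Af.nrh_of_gfs (gfs_hg h)) (gfs_hg h).hsize
  refine ⟨G0, hG0, fun g hg k m' a D d => ?_⟩
  obtain ⟨δ₁, Ex, hE⟩ := hwin g hg 0 Fin.elim0 0 k m' D d a
  refine ⟨Ex + (g + b₀ + 2), fun B ξ hξ hHt => ?_⟩
  have hB1 : (1 : ℝ) ≤ (B : ℝ) + 2 := by linarith [(Nat.cast_nonneg B : (0 : ℝ) ≤ B)]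
  have hB2 : (2 : ℝ) ≤ (B : ℝ) + 2 := by linarith [(Nat.cast_nonneg B : (0 : ℝ) ≤ B)]
  have hbig : ((B : ℝ) + 2) ^ Ex ≤ ‖ξ‖ := (pow_le_pow_right₀ hB1 (by omega)).trans hξ
  have hgB : (g * B : ℝ) + b₀ < ‖ξ‖ := by
    have h1 : ((B : ℝ) + 2) ^ (g + b₀ + 2) ≤ ‖ξ‖ := (pow_le_pow_right₀ hB1 (by omega)).trans hξ
    have h2 : (g : ℝ) + b₀ + 1 ≤ ((B : ℝ) + 2) ^ (g + b₀ + 1) := by
      refine le_trans ?_ (pow_le_pow_left₀ (by norm_num) hB2 (g + b₀ + 1))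
      exact_mod_cast (Nat.lt_two_pow_self (n := g + b₀ + 1)).le
    have h3 : ((g : ℝ) + b₀ + 1) * ((B : ℝ) + 2) ≤ ((B : ℝ) + 2) ^ (g + b₀ + 2) := by
      rw [pow_succ ((B : ℝ) + 2) (g + b₀ + 1)]
      exact mul_le_mul_of_nonneg_right h2 (by linarith)
    have h4 : (0 : ℝ) ≤ g := Nat.cast_nonneg g
    have h5 : (0 : ℝ) ≤ B := Nat.cast_nonneg B
    have h6 : (0 : ℝ) ≤ b₀ := Nat.cast_nonneg b₀
    nlinarith [mul_nonneg h6 h5]
  refine ⟨hgB, fun u hu hub K hK hKD P hPd hP0 γ hγ => ?_⟩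
  obtain ⟨S, hS, hmain⟩ := hE B ξ hbig hHt Fin.elim0
  have hcard : S.card = 0 := by
    have h1 : (S.card : Cardinal) ≤ 0 := by
      refine hS.trans (le_of_eq ?_)
      rw [Nat.cast_zero, add_zero]
      have h2 : IntermediateField.adjoin ℚ (Set.range (Fin.elim0 : Fin 0 → ℂ)) = ⊥ := by
        rw [IntermediateField.adjoin_eq_bot_iff]
        rintro _ ⟨i, -⟩
        exact i.elim0
      rw [h2]
      exact trdeg_eq_zero
    have h2 : (S.card : Cardinal) = 0 := le_antisymm h1 bot_le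
    exact_mod_cast h2
  have hS0 : S = ∅ := Finset.card_eq_zero.1 hcard
  subst hS0
  have hz : ∀ j, (b₀ : ℝ) < ‖ξ - ((g * u j : ℕ) : ℂ)‖ := by
    intro j
    have h1 := norm_sub_norm_le ξ ((g * u j : ℕ) : ℂ)
    rw [Complex.norm_natCast] at h1
    have h2 : ((g * u j : ℕ) : ℝ) ≤ g * B := by
      push_cast
      exact mul_le_mul_of_nonneg_left (by exact_mod_cast (hub j).2) (Nat.cast_nonneg g)
    linarith
  have hm := hmain u hu (fun j => ⟨(hub j).1, (hub j).2, by simp⟩)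
    (Gpt G k) (Pool.Agent.Y916.Af.irrD_of_irr (Gpt_irr hP k) _)
    ⟨fun j => Mv H (1 / (ξ - ((g * u j : ℕ) : ℂ))), fun j => hv _ (hz j), by
      funext x
      rfl⟩ (by
      rintro y ⟨g', hg', rfl⟩ j R hR
      exact hrel R hR _ _ (hg' j)) K hK hKD
    (MvPolynomial.rename (fun x : Fin k × (Fin n × Fin n) => (Sum.inr (x.1, (ix n).symm x.2) :
      (Fin 0 ⊕ Fin 0) ⊕ Fin k × Fin (n * n))) P) ((MvPolynomial.totalDegree_rename_le _ _).trans hPd) (by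
      rw [MvPolynomial.aeval_rename, ← hP0]
      refine congrArg (fun z => MvPolynomial.aeval z P) (funext fun x => ?_)
      show evc (1 / (ξ - ((g * u x.1 : ℕ) : ℂ))) (HJ.hg H ((ix n).symm x.2)) = _
      show evc (1 / (ξ - ((g * u x.1 : ℕ) : ℂ))) (H (ix n ((ix n).symm x.2)).1 (ix n ((ix n).symm x.2)).2) = _
      rw [Equiv.apply_symm_apply]
      rfl) (fun a => γ a.1 (ix n a.2).1 (ix n a.2).2) ⟨γ, hγ, rfl⟩
  rw [MvPolynomial.aeval_rename] at hm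
  rw [← hm]
  refine congrArg (fun z => MvPolynomial.aeval z P) (funext fun x => ?_)
  show _ = γ x.1 (ix n ((ix n).symm x.2)).1 (ix n ((ix n).symm x.2)).2
  rw [Equiv.apply_symm_apply]

end sys

end Pool.Agent.W2helper4.CY
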